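import Mathlib

set_option autoImplicit false

/-!
Ordered graphs: a graph on `ℕ` together with a finite vertex set `V`, ordered by `<`.
-/

namespace Pool.Agent.Lib.MP_3ae7ea_co

open Finset Classical

noncomputable section

/-- back neighbours of `v` in `V` -/
def bn (G : SimpleGraph ℕ) (V : Finset ℕ) (v : ℕ) : Finset ℕ :=
  V.filter (fun u => u < v ∧ G.Adj u v)

/-- number of edges inside the back neighbourhood of `v` -/
def ev (G : SimpleGraph ℕ) (V : Finset ℕ) (v : ℕ) : ℕ :=
  ∑ u ∈ bn G V v, (bn G V u ∩ bn G V v).card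

/-- independent sets -/
def Indep (G : SimpleGraph ℕ) (I : Finset ℕ) : Prop := ∀ u ∈ I, ∀ v ∈ I, u < v → ¬ G.Adj u v

/-- no clique with `r` vertices inside `V` -/
def KFree (G : SimpleGraph ℕ) (r : ℕ) (V : Finset ℕ) : Prop := ∀ s ⊆ V, ¬ G.IsNClique r s

theorem mem_bn {G : SimpleGraph ℕ} {V : Finset ℕ} {u v : ℕ} :
    u ∈ bn G V v ↔ u ∈ V ∧ u < v ∧ G.Adj u v := by
  simp [bn]

theorem bn_mono {G : SimpleGraph ℕ} {V W : Finset ℕ} (h : V ⊆ W) (v : ℕ) :
    bn G V v ⊆ bn G W v := by
  intro u hu
  rw [mem_bn] at *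
  exact ⟨h hu.1, hu.2⟩

theorem card_bn_mono {G : SimpleGraph ℕ} {V W : Finset ℕ} (h : V ⊆ W) (v : ℕ) :
    (bn G V v).card ≤ (bn G W v).card := card_le_card (bn_mono h v)

theorem ev_mono {G : SimpleGraph ℕ} {V W : Finset ℕ} (h : V ⊆ W) (v : ℕ) :
    ev G V v ≤ ev G W v := by
  unfold ev
  calc ∑ u ∈ bn G V v, (bn G V u ∩ bn G V v).card
      ≤ ∑ u ∈ bn G V v, (bn G W u ∩ bn G W v).card := sum_le_sum fun u _ =>
        card_le_card (inter_subset_inter (bn_mono h u) (bn_mono h v))
    _ ≤ ∑ u ∈ bn G W v, (bn G W u ∩ bn G W v).card :=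
        sum_le_sum_of_subset (bn_mono h v)

theorem Indep.mono {G : SimpleGraph ℕ} {I J : Finset ℕ} (hJ : Indep G J) (h : I ⊆ J) :
    Indep G I := fun u hu v hv huv => hJ u (h hu) v (h hv) huv

theorem KFree.mono {G : SimpleGraph ℕ} {r : ℕ} {V W : Finset ℕ} (hW : KFree G r W) (h : V ⊆ W) :
    KFree G r V := fun s hs => hW s (hs.trans h)

/-- forward neighbourhoods have smaller cliques -/
theorem KFree.fwd {G : SimpleGraph ℕ} {r : ℕ} {V : Finset ℕ} (hV : KFree G (r + 1) V)
    {x : ℕ} (hx : x ∈ V) {C : Finset ℕ} (hC : C ⊆ V) (h : ∀ v ∈ C, G.Adj x v) : KFree G r C := by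
  intro s hs hcl
  refine hV (insert x s) (insert_subset hx (hs.trans hC)) ?_
  exact hcl.insert (fun b hb => h b (hs hb))

/-- the polynomial expansion used for rounding -/
theorem expand (V : Finset ℕ) (A s δ : ℕ → ℝ) (C : ℕ → ℕ → ℝ)
    (h : ∀ u v, C u v * (δ u * δ v) = 0) :
    ∑ v ∈ V, A v * (s v + δ v) + ∑ u ∈ V, ∑ v ∈ V, C u v * ((s u + δ u) * (s v + δ v)) =
      ∑ v ∈ V, A v * s v + ∑ u ∈ V, ∑ v ∈ V, C u v * (s u * s v) +
        ∑ v ∈ V, δ v * (A v + ∑ u ∈ V, (C u v + C v u) * s u) := by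
  have e1 : ∑ u ∈ V, ∑ v ∈ V, C u v * ((s u + δ u) * (s v + δ v)) =
      ∑ u ∈ V, ∑ v ∈ V, C u v * (s u * s v) + ∑ u ∈ V, ∑ v ∈ V, C u v * (δ u * s v) +
        ∑ u ∈ V, ∑ v ∈ V, C u v * (s u * δ v) := by
    rw [← sum_add_distrib, ← sum_add_distrib]
    refine sum_congr rfl fun u _ => ?_
    rw [← sum_add_distrib, ← sum_add_distrib]
    refine sum_congr rfl fun v _ => ?_
    have := h u v
    linear_combination this
  have e2 : ∑ u ∈ V, ∑ v ∈ V, C u v * (s u * δ v) = ∑ v ∈ V, ∑ u ∈ V, C u v * (s u * δ v) :=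
    sum_comm
  rw [e1, e2]
  have e3 : ∑ v ∈ V, δ v * (A v + ∑ u ∈ V, (C u v + C v u) * s u) =
      ∑ v ∈ V, A v * δ v + ∑ v ∈ V, ∑ u ∈ V, C v u * (δ v * s u) +
        ∑ v ∈ V, ∑ u ∈ V, C u v * (s u * δ v) := by
    rw [← sum_add_distrib, ← sum_add_distrib]
    refine sum_congr rfl fun v _ => ?_
    rw [mul_add, mul_sum, add_assoc, ← sum_add_distrib]
    congr 1
    · ring
    · refine sum_congr rfl fun u _ => ?_
      ring
  rw [e3]
  simp only [mul_add, sum_add_distrib]
  ring

/-- Cluster rounding. -/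
theorem round {G : SimpleGraph ℕ} {L : Type} [DecidableEq L] (V : Finset ℕ) (cl : ℕ → L) (p : ℝ)
    (A : ℕ → ℝ) (C : ℕ → ℕ → ℝ) (hp : 0 ≤ p) (hC : ∀ u v, cl u = cl v → C u v = 0)
    (H : ∀ l : L, ∀ z : ℕ → ℝ, (∀ v, 0 ≤ z v) →
      ∃ J ⊆ V.filter (fun v => cl v = l), Indep G J ∧
        p * ∑ v ∈ V.filter (fun v => cl v = l), z v ≤ ∑ v ∈ J, z v) :
    ∃ S ⊆ V, (∀ u ∈ S, ∀ v ∈ S, u < v → cl u = cl v → ¬ G.Adj u v) ∧
      p * ∑ v ∈ V, A v + p ^ 2 * ∑ u ∈ V, ∑ v ∈ V, C u v ≤
        ∑ v ∈ S, A v + ∑ u ∈ S, ∑ v ∈ S, C u v := by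
  have key : ∀ Λ : Finset L, ∃ s : ℕ → ℝ, (∀ v, cl v ∉ Λ → s v = p) ∧
      (∀ v ∈ V, cl v ∈ Λ → s v = 0 ∨ s v = 1) ∧
      (∀ u ∈ V, ∀ v ∈ V, cl u ∈ Λ → u < v → cl u = cl v → s u ≠ 0 → s v ≠ 0 → ¬ G.Adj u v) ∧
      ∑ v ∈ V, A v * p + ∑ u ∈ V, ∑ v ∈ V, C u v * (p * p) ≤
        ∑ v ∈ V, A v * s v + ∑ u ∈ V, ∑ v ∈ V, C u v * (s u * s v) := by
    intro Λ
    induction Λ using Finset.induction_on with
    | empty =>
      refine ⟨fun _ => p, fun _ _ => rfl, ?_, ?_, le_rfl⟩
      · intro v _ hv
        exact absurd hv (notMem_empty _)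
      · intro u _ v _ hu
        exact absurd hu (notMem_empty _)
    | insert l Λ hl ih =>
      obtain ⟨s, h1, h2, h3, h4⟩ := ih
      set z : ℕ → ℝ := fun v => A v + ∑ u ∈ V, (C u v + C v u) * s u with hz
      obtain ⟨J, hJ, hind, hsum⟩ := H l (fun v => max (z v) 0) (fun v => le_max_right _ _)
      set s' : ℕ → ℝ := fun v => if cl v = l then (if v ∈ J ∧ 0 < z v then 1 else 0) else s v
        with hs'
      refine ⟨s', ?_, ?_, ?_, ?_⟩
      · intro v hv
        rw [mem_insert, not_or] at hv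
        simp only [hs', if_neg hv.1]
        exact h1 v hv.2
      · intro v hvV hv
        by_cases hvl : cl v = l
        · simp only [hs', if_pos hvl]
          by_cases hh : v ∈ J ∧ 0 < z v
          · right
            rw [if_pos hh]
          · left
            rw [if_neg hh]
        · simp only [hs', if_neg hvl]
          exact h2 v hvV ((mem_insert.1 hv).resolve_left hvl)
      · intro u hu v hv huΛ huv hcl hu0 hv0
        by_cases hul : cl u = l
        · have hvl : cl v = l := hcl ▸ hul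
          simp only [hs', if_pos hul] at hu0
          simp only [hs', if_pos hvl] at hv0
          have huJ : u ∈ J := by
            by_contra hcon
            exact hu0 (if_neg fun h => hcon h.1)
          have hvJ : v ∈ J := by
            by_contra hcon
            exact hv0 (if_neg fun h => hcon h.1)
          exact hind u huJ v hvJ huv
        · have hvl : ¬ cl v = l := fun h => hul (hcl.trans h)
          simp only [hs', if_neg hul] at hu0
          simp only [hs', if_neg hvl] at hv0
          exact h3 u hu v hv ((mem_insert.1 huΛ).resolve_left hul) huv hcl hu0 hv0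
      · refine h4.trans ?_
        set δ : ℕ → ℝ := fun v => s' v - s v with hδ
        have hδ0 : ∀ v, cl v ≠ l → δ v = 0 := by
          intro v hv
          simp only [hδ, hs', if_neg hv, sub_self]
        have hex := expand V A s δ C (by
          intro u v
          by_cases hu : cl u = l
          · by_cases hv : cl v = l
            · rw [hC u v (hu.trans hv.symm), zero_mul]
            · rw [hδ0 v hv, mul_zero, mul_zero]
          · rw [hδ0 u hu, zero_mul, mul_zero])
        have hs'e : ∀ v, s v + δ v = s' v := fun v => by simp [hδ]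
        simp only [hs'e] at hex
        rw [hex]
        have hmain : 0 ≤ ∑ v ∈ V, δ v * z v := by
          have e1 : ∑ v ∈ V, δ v * z v = ∑ v ∈ V.filter (fun v => cl v = l), δ v * z v := by
            rw [sum_filter]
            refine sum_congr rfl fun v _ => ?_
            by_cases hv : cl v = l
            · rw [if_pos hv]
            · rw [if_neg hv, hδ0 v hv, zero_mul]
          rw [e1]
          have e2 : ∑ v ∈ V.filter (fun v => cl v = l), δ v * z v =
              ∑ v ∈ V.filter (fun v => cl v = l), s' v * z v -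
                p * ∑ v ∈ V.filter (fun v => cl v = l), z v := by
            rw [mul_sum, ← sum_sub_distrib]
            refine sum_congr rfl fun v hv => ?_
            have hvl := (mem_filter.1 hv).2
            have : s v = p := h1 v (by rw [hvl]; exact hl)
            simp only [hδ, this]
            ring
          have e3 : ∑ v ∈ V.filter (fun v => cl v = l), s' v * z v = ∑ v ∈ J, max (z v) 0 := by
            have : ∀ v ∈ V.filter (fun v => cl v = l), s' v * z v =
                if v ∈ J then max (z v) 0 else 0 := by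
              intro v hv
              have hvl := (mem_filter.1 hv).2
              simp only [hs', if_pos hvl]
              by_cases hvJ : v ∈ J
              · by_cases hz0 : 0 < z v
                · rw [if_pos ⟨hvJ, hz0⟩, if_pos hvJ, one_mul, max_eq_left hz0.le]
                · rw [if_neg (fun h => hz0 h.2), if_pos hvJ, zero_mul,
                    max_eq_right (not_lt.1 hz0)]
              · rw [if_neg (fun h => hvJ h.1), if_neg hvJ, zero_mul]
            rw [sum_congr rfl this, sum_ite_mem, inter_eq_right.2 hJ]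
          rw [e2, e3]
          have e4 : p * ∑ v ∈ V.filter (fun v => cl v = l), z v ≤
              p * ∑ v ∈ V.filter (fun v => cl v = l), max (z v) 0 :=
            mul_le_mul_of_nonneg_left (sum_le_sum fun v _ => le_max_left _ _) hp
          linarith
        linarith
  obtain ⟨s, -, h2, h3, h4⟩ := key (V.image cl)
  refine ⟨V.filter (fun v => s v ≠ 0), filter_subset _ _, ?_, ?_⟩
  · intro u hu v hv huv hcl
    rw [mem_filter] at hu hv
    exact h3 u hu.1 v hv.1 (mem_image_of_mem _ hu.1) huv hcl hu.2 hv.2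
  · have hs : ∀ v ∈ V, s v = if s v ≠ 0 then 1 else 0 := by
      intro v hv
      rcases h2 v hv (mem_image_of_mem _ hv) with h | h
      · rw [if_neg (by simpa using h), h]
      · rw [if_pos (by rw [h]; exact one_ne_zero), h]
    have e1 : ∑ v ∈ V, A v * s v = ∑ v ∈ V.filter (fun v => s v ≠ 0), A v := by
      rw [sum_filter]
      refine sum_congr rfl fun v hv => ?_
      rcases h2 v hv (mem_image_of_mem _ hv) with h | h
      · simp [h]
      · simp [h]
    have e2 : ∑ u ∈ V, ∑ v ∈ V, C u v * (s u * s v) =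
        ∑ u ∈ V.filter (fun v => s v ≠ 0), ∑ v ∈ V.filter (fun v => s v ≠ 0), C u v := by
      rw [sum_filter]
      refine sum_congr rfl fun u hu => ?_
      rcases h2 u hu (mem_image_of_mem _ hu) with h | h
      · simp [h]
      · rw [if_pos (by rw [h]; exact one_ne_zero), sum_filter]
        refine sum_congr rfl fun v hv => ?_
        rcases h2 v hv (mem_image_of_mem _ hv) with h' | h'
        · simp [h']
        · simp [h, h']
    rw [e1, e2] at h4
    calc p * ∑ v ∈ V, A v + p ^ 2 * ∑ u ∈ V, ∑ v ∈ V, C u v =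
        ∑ v ∈ V, A v * p + ∑ u ∈ V, ∑ v ∈ V, C u v * (p * p) := by
          rw [mul_sum, mul_sum]
          congr 1
          · exact sum_congr rfl fun v _ => mul_comm _ _
          · refine sum_congr rfl fun u _ => ?_
            rw [mul_sum]
            exact sum_congr rfl fun v _ => by ring
      _ ≤ _ := h4

end

end Pool.Agent.Lib.MP_3ae7ea_co
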