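import Mathlib
import Pool.Agent.Lib.MP_3ae7ea_co.Basic

set_option autoImplicit false

/-!
Min-hash clustering: a uniformly random permutation of the vertices; the label of a vertex is the
minimal rank of its back neighbours.
-/

namespace Pool.Agent.Lib.MP_3ae7ea_co

open Finset Classical

noncomputable section

/-- rank of a natural number under a permutation of `Fin N` -/
def rk {N : ℕ} (σ : Equiv.Perm (Fin N)) (x : ℕ) : ℕ := if h : x < N then (σ ⟨x, h⟩ : ℕ) else x

theorem rk_lt {N : ℕ} (σ : Equiv.Perm (Fin N)) {x : ℕ} (h : x < N) :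
    rk σ x = (σ ⟨x, h⟩ : ℕ) := dif_pos h

theorem rk_inj {N : ℕ} (σ : Equiv.Perm (Fin N)) {x y : ℕ} (hx : x < N) (hy : y < N)
    (h : rk σ x = rk σ y) : x = y := by
  rw [rk_lt σ hx, rk_lt σ hy] at h
  have := σ.injective (Fin.ext h)
  simpa using this

/-- permutations for which `w` has minimal rank in `W` -/
def argm (N : ℕ) (W : Finset ℕ) (w : ℕ) : Finset (Equiv.Perm (Fin N)) :=
  univ.filter (fun σ => ∀ x ∈ W, rk σ w ≤ rk σ x)

theorem argm_card_le (N : ℕ) (W : Finset ℕ) (hW : W ⊆ range N) {w w' : ℕ} (hw : w ∈ W)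
    (hw' : w' ∈ W) : (argm N W w).card ≤ (argm N W w').card := by
  have hwN : w < N := mem_range.1 (hW hw)
  have hwN' : w' < N := mem_range.1 (hW hw')
  refine card_le_card_of_injOn
    (fun σ => σ * Equiv.swap (⟨w, hwN⟩ : Fin N) ⟨w', hwN'⟩) ?_ ?_
  · intro σ hσ
    have hσ' : ∀ x ∈ W, rk σ w ≤ rk σ x := (mem_filter.1 hσ).2
    refine mem_coe.2 (mem_filter.2 ⟨mem_univ _, ?_⟩)
    intro x hx
    have hxN : x < N := mem_range.1 (hW hx)
    have e1 : rk (σ * Equiv.swap (⟨w, hwN⟩ : Fin N) ⟨w', hwN'⟩) w' = rk σ w := by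
      rw [rk_lt _ hwN', rk_lt _ hwN, Equiv.Perm.mul_apply, Equiv.swap_apply_right]
    rw [e1]
    by_cases h1 : x = w
    · subst h1
      have e2 : rk (σ * Equiv.swap (⟨x, hwN⟩ : Fin N) ⟨w', hwN'⟩) x = rk σ w' := by
        rw [rk_lt _ hwN, rk_lt _ hwN', Equiv.Perm.mul_apply, Equiv.swap_apply_left]
      rw [e2]
      exact hσ' w' hw'
    · by_cases h2 : x = w'
      · subst h2
        rw [e1]
      · have e2 : rk (σ * Equiv.swap (⟨w, hwN⟩ : Fin N) ⟨w', hwN'⟩) x = rk σ x := by
          rw [rk_lt _ hxN, rk_lt _ hxN, Equiv.Perm.mul_apply, Equiv.swap_apply_of_ne_of_ne]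
          · simpa using h1
          · simpa using h2
        rw [e2]
        exact hσ' x hx
  · intro σ _ τ _ h
    exact mul_right_cancel h

theorem argm_card (N : ℕ) (W : Finset ℕ) (hW : W ⊆ range N) {w : ℕ} (hw : w ∈ W) :
    W.card * (argm N W w).card = Fintype.card (Equiv.Perm (Fin N)) := by
  have h1 : ∑ w' ∈ W, (argm N W w').card = W.card * (argm N W w).card := by
    rw [sum_const_nat (m := (argm N W w).card)]
    intro w' hw'
    exact le_antisymm (argm_card_le N W hW hw' hw) (argm_card_le N W hW hw hw')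
  have h2 : ∑ w' ∈ W, (argm N W w').card = Fintype.card (Equiv.Perm (Fin N)) := by
    have : ∀ w' ∈ W, (argm N W w').card =
        ∑ σ : Equiv.Perm (Fin N), if (∀ x ∈ W, rk σ w' ≤ rk σ x) then 1 else 0 := by
      intro w' _
      rw [argm, card_filter]
    rw [sum_congr rfl this, sum_comm]
    have h3 : ∀ σ : Equiv.Perm (Fin N),
        (∑ w' ∈ W, if (∀ x ∈ W, rk σ w' ≤ rk σ x) then 1 else 0) = 1 := by
      intro σ
      obtain ⟨m, hm, hmin⟩ := exists_min_image W (rk σ) ⟨w, hw⟩
      rw [sum_eq_single_of_mem m hm, if_pos hmin]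
      intro b hb hbm
      rw [if_neg]
      intro hcon
      apply hbm
      exact rk_inj σ (mem_range.1 (hW hb)) (mem_range.1 (hW hm))
        (le_antisymm (hcon m hm) (hmin b hb))
    rw [sum_congr rfl (fun σ _ => h3 σ), sum_const, smul_eq_mul, mul_one, card_univ]
  rw [← h1, h2]

/-- the label of a vertex -/
def lab {N : ℕ} (G : SimpleGraph ℕ) (V : Finset ℕ) (σ : Equiv.Perm (Fin N)) (v : ℕ) : WithTop ℕ :=
  (bn G V v).inf (fun x => (rk σ x : WithTop ℕ))

theorem lab_eq_of_argm {N : ℕ} {G : SimpleGraph ℕ} {V : Finset ℕ} {u v w : ℕ}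
    (hw : w ∈ bn G V u ∩ bn G V v) {σ : Equiv.Perm (Fin N)}
    (hσ : σ ∈ argm N (bn G V u ∪ bn G V v) w) : lab G V σ u = lab G V σ v := by
  have hσ' := (mem_filter.1 hσ).2
  rw [mem_inter] at hw
  have key : ∀ t : ℕ, w ∈ bn G V t → bn G V t ⊆ bn G V u ∪ bn G V v →
      lab G V σ t = (rk σ w : WithTop ℕ) := by
    intro t ht hsub
    refine le_antisymm (inf_le ht) ?_
    refine Finset.le_inf fun x hx => ?_
    exact WithTop.coe_le_coe.2 (hσ' x (hsub hx))
  rw [key u hw.1 subset_union_left, key v hw.2 subset_union_right]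

/-- probability of equal labels -/
theorem same_label {N : ℕ} {G : SimpleGraph ℕ} {V : Finset ℕ} (hV : V ⊆ range N) (u v : ℕ) :
    (bn G V u ∩ bn G V v).card * Fintype.card (Equiv.Perm (Fin N)) ≤
      (bn G V u ∪ bn G V v).card *
        (univ.filter (fun σ : Equiv.Perm (Fin N) => lab G V σ u = lab G V σ v)).card := by
  set U := bn G V u ∪ bn G V v with hU
  have hUN : U ⊆ range N := by
    intro x hx
    rw [hU, mem_union, mem_bn, mem_bn] at hx
    rcases hx with hx | hx
    · exact hV hx.1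
    · exact hV hx.1
  have hCU : bn G V u ∩ bn G V v ⊆ U := inter_subset_left.trans subset_union_left
  have h1 : (bn G V u ∩ bn G V v).card * Fintype.card (Equiv.Perm (Fin N)) =
      U.card * ∑ w ∈ bn G V u ∩ bn G V v, (argm N U w).card := by
    rw [mul_sum, sum_const_nat (m := Fintype.card (Equiv.Perm (Fin N)))]
    intro w hw
    exact argm_card N U hUN (hCU hw)
  rw [h1]
  refine Nat.mul_le_mul le_rfl ?_
  rw [← card_biUnion]
  · refine card_le_card ?_
    intro σ hσ
    rw [mem_biUnion] at hσ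
    obtain ⟨w, hw, hσw⟩ := hσ
    exact mem_filter.2 ⟨mem_univ _, lab_eq_of_argm hw hσw⟩
  · intro w hw w' hw' hne
    refine Finset.disjoint_left.2 ?_
    intro σ h1 h2
    apply hne
    have hw1 := hCU hw
    have hw2 := hCU hw'
    exact rk_inj σ (mem_range.1 (hUN hw1)) (mem_range.1 (hUN hw2))
      (le_antisymm ((mem_filter.1 h1).2 w' hw2) ((mem_filter.1 h2).2 w hw1))

/-- averaging over permutations -/
theorem exists_perm {N : ℕ} {G : SimpleGraph ℕ} {V : Finset ℕ} (hV : V ⊆ range N) (D : ℝ)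
    (hD : 0 < D) (hdeg : ∀ v ∈ V, ((bn G V v).card : ℝ) ≤ D) (y : ℕ → ℝ) (hy : ∀ v, 0 ≤ y v) :
    ∃ σ : Equiv.Perm (Fin N),
      ∑ v ∈ V, y v * (((bn G V v).filter (fun u => lab G V σ u ≠ lab G V σ v)).card : ℝ) ≤
        ∑ v ∈ V, y v * ((bn G V v).card - ev G V v / (2 * D)) := by
  set P : ℝ := (Fintype.card (Equiv.Perm (Fin N)) : ℝ) with hP
  have hP0 : 0 < P := by
    rw [hP]
    exact_mod_cast Fintype.card_pos
  have hpair : ∀ v ∈ V, ∀ u ∈ bn G V v,
      ((univ.filter (fun σ : Equiv.Perm (Fin N) => lab G V σ u ≠ lab G V σ v)).card : ℝ) ≤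
        P * (1 - (bn G V u ∩ bn G V v).card / (2 * D)) := by
    intro v hv u hu
    have huV : u ∈ V := (mem_bn.1 hu).1
    have h1 := same_label (N := N) (G := G) hV u v
    have h2 : ((univ.filter (fun σ : Equiv.Perm (Fin N) => lab G V σ u = lab G V σ v)).card : ℝ) +
        ((univ.filter (fun σ : Equiv.Perm (Fin N) => lab G V σ u ≠ lab G V σ v)).card : ℝ) = P := by
      rw [hP]
      have := card_filter_add_card_filter_not (s := (univ : Finset (Equiv.Perm (Fin N))))
        (fun σ => lab G V σ u = lab G V σ v)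
      exact_mod_cast this
    have h3 : ((bn G V u ∪ bn G V v).card : ℝ) ≤ 2 * D := by
      have := card_union_le (bn G V u) (bn G V v)
      have h4 := hdeg u huV
      have h5 := hdeg v hv
      have : ((bn G V u ∪ bn G V v).card : ℝ) ≤ (bn G V u).card + (bn G V v).card := by
        exact_mod_cast this
      linarith
    have h6 : ((bn G V u ∩ bn G V v).card : ℝ) * P ≤ 2 * D *
        ((univ.filter (fun σ : Equiv.Perm (Fin N) => lab G V σ u = lab G V σ v)).card : ℝ) := by
      have h7 : ((bn G V u ∩ bn G V v).card : ℝ) * P ≤ ((bn G V u ∪ bn G V v).card : ℝ) *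
        ((univ.filter (fun σ : Equiv.Perm (Fin N) => lab G V σ u = lab G V σ v)).card : ℝ) := by
        rw [hP]
        exact_mod_cast h1
      refine h7.trans ?_
      exact mul_le_mul_of_nonneg_right h3 (Nat.cast_nonneg _)
    have h8 : P * ((bn G V u ∩ bn G V v).card / (2 * D)) ≤
        ((univ.filter (fun σ : Equiv.Perm (Fin N) => lab G V σ u = lab G V σ v)).card : ℝ) := by
      rw [← mul_div_assoc, div_le_iff₀ (by positivity)]
      linarith
    rw [mul_sub, mul_one]
    linarith
  have hsum : ∑ σ : Equiv.Perm (Fin N),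
      ∑ v ∈ V, y v * (((bn G V v).filter (fun u => lab G V σ u ≠ lab G V σ v)).card : ℝ) ≤
      ∑ _σ : Equiv.Perm (Fin N), ∑ v ∈ V, y v * ((bn G V v).card - ev G V v / (2 * D)) := by
    rw [sum_comm, sum_const, nsmul_eq_mul, card_univ, ← hP, mul_sum]
    refine sum_le_sum fun v hv => ?_
    rw [← mul_sum]
    have e1 : ∑ σ : Equiv.Perm (Fin N),
        (((bn G V v).filter (fun u => lab G V σ u ≠ lab G V σ v)).card : ℝ) =
        ∑ u ∈ bn G V v,
          ((univ.filter (fun σ : Equiv.Perm (Fin N) => lab G V σ u ≠ lab G V σ v)).card : ℝ) := by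
      simp only [card_filter, Nat.cast_sum]
      exact sum_comm
    rw [e1]
    have e2 : ∑ u ∈ bn G V v,
        ((univ.filter (fun σ : Equiv.Perm (Fin N) => lab G V σ u ≠ lab G V σ v)).card : ℝ) ≤
        ∑ u ∈ bn G V v, P * (1 - (bn G V u ∩ bn G V v).card / (2 * D)) :=
      sum_le_sum fun u hu => hpair v hv u hu
    have e3 : ∑ u ∈ bn G V v, P * (1 - ((bn G V u ∩ bn G V v).card : ℝ) / (2 * D)) =
        P * ((bn G V v).card - ev G V v / (2 * D)) := by
      rw [← mul_sum, sum_sub_distrib, sum_const, nsmul_eq_mul, mul_one, ← sum_div, ev, Nat.cast_sum]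
    calc y v * ∑ u ∈ bn G V v,
        ((univ.filter (fun σ : Equiv.Perm (Fin N) => lab G V σ u ≠ lab G V σ v)).card : ℝ) ≤
        y v * (P * ((bn G V v).card - ev G V v / (2 * D))) := by
          rw [← e3]
          exact mul_le_mul_of_nonneg_left e2 (hy v)
      _ = P * (y v * ((bn G V v).card - ev G V v / (2 * D))) := by ring
  obtain ⟨σ, -, hσ⟩ := exists_le_of_sum_le (s := (univ : Finset (Equiv.Perm (Fin N))))
    univ_nonempty hsum
  exact ⟨σ, hσ⟩

/-- Dense step. -/
theorem dense {G : SimpleGraph ℕ} {V : Finset ℕ} (D : ℝ)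
    (hD : 0 < D) (hdeg : ∀ v ∈ V, ((bn G V v).card : ℝ) ≤ D) (p : ℝ) (hp : 0 ≤ p) (hp1 : p ≤ 1)
    (H : ∀ x ∈ V, ∀ C ⊆ V, (∀ v ∈ C, G.Adj x v) → ∀ z : ℕ → ℝ, (∀ v, 0 ≤ z v) →
      ∃ J ⊆ C, Indep G J ∧ p * ∑ v ∈ C, z v ≤ ∑ v ∈ J, z v)
    (a c : ℝ) (hc : 0 ≤ c) (y : ℕ → ℝ) (hy : ∀ v, 0 ≤ y v) :
    ∃ S ⊆ V, p * ∑ v ∈ V, y v * a -
        p ^ 2 * c * ∑ v ∈ V, y v * ((bn G V v).card - ev G V v / (2 * D)) ≤
      ∑ v ∈ S, y v * (a - c * (bn G S v).card) := by
  obtain ⟨N, hN⟩ : ∃ N, V ⊆ range N := V.exists_nat_subset_range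
  obtain ⟨σ, hσ⟩ := exists_perm (N := N) hN D hD hdeg y hy
  set C : ℕ → ℕ → ℝ := fun u v =>
    if u < v ∧ G.Adj u v ∧ lab G V σ u ≠ lab G V σ v then - (c * y v) else 0 with hC
  obtain ⟨S, hS, hind, hsum⟩ := round (G := G) V (lab G V σ) p (fun v => y v * a) C hp
    (by
      intro u v huv
      simp only [hC]
      rw [if_neg]
      rintro ⟨-, -, h⟩
      exact h huv)
    (by
      intro l z hz
      rcases Finset.eq_empty_or_nonempty (V.filter (fun v => lab G V σ v = l)) with hE | ⟨v0, hv0⟩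
      · refine ⟨∅, empty_subset _, ?_, ?_⟩
        · intro u hu
          exact absurd hu (notMem_empty _)
        · rw [hE, sum_empty, mul_zero]
      · rcases Finset.eq_empty_or_nonempty (bn G V v0) with hB | hB
        · -- top label
          refine ⟨V.filter (fun v => lab G V σ v = l), Subset.rfl, ?_, ?_⟩
          · intro u hu v hv huv hadj
            rw [mem_filter] at hu hv hv0
            have hl : l = ⊤ := by
              rw [← hv0.2, lab, hB, inf_empty]
            have hub : u ∈ bn G V v := mem_bn.2 ⟨hu.1, huv, hadj⟩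
            have : lab G V σ v ≤ (rk σ u : WithTop ℕ) := inf_le hub
            rw [hv.2, hl, top_le_iff] at this
            exact WithTop.coe_ne_top this
          · have : 0 ≤ ∑ v ∈ V.filter (fun v => lab G V σ v = l), z v := sum_nonneg fun v _ => hz v
            nlinarith
        · obtain ⟨x, hx, hxmin⟩ := exists_min_image (bn G V v0) (rk σ) hB
          have hxV : x ∈ V := (mem_bn.1 hx).1
          have hlx : l = (rk σ x : WithTop ℕ) := by
            rw [← (mem_filter.1 hv0).2]
            refine le_antisymm (inf_le hx) (Finset.le_inf fun t ht => ?_)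
            exact WithTop.coe_le_coe.2 (hxmin t ht)
          refine H x hxV _ (filter_subset _ _) ?_ z hz
          intro v hv
          rw [mem_filter] at hv
          have hne : (bn G V v).Nonempty := by
            rw [nonempty_iff_ne_empty]
            intro hcon
            have : lab G V σ v = ⊤ := by rw [lab, hcon, inf_empty]
            rw [hv.2, hlx] at this
            exact WithTop.coe_ne_top this
          obtain ⟨x', hx', hx'min⟩ := exists_min_image (bn G V v) (rk σ) hne
          have hl' : l = (rk σ x' : WithTop ℕ) := by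
            rw [← hv.2]
            refine le_antisymm (inf_le hx') (Finset.le_inf fun t ht => ?_)
            exact WithTop.coe_le_coe.2 (hx'min t ht)
          have hxx : x = x' := by
            have hx'V : x' ∈ V := (mem_bn.1 hx').1
            refine rk_inj σ (mem_range.1 (hN hxV)) (mem_range.1 (hN hx'V)) ?_
            exact WithTop.coe_injective (hlx.symm.trans hl')
          rw [hxx]
          exact (mem_bn.1 hx').2.2)
  refine ⟨S, hS, ?_⟩
  have e1 : ∑ u ∈ V, ∑ v ∈ V, C u v =
      - c * ∑ v ∈ V, y v * (((bn G V v).filter (fun u => lab G V σ u ≠ lab G V σ v)).card : ℝ) := by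
    rw [sum_comm, mul_sum]
    refine sum_congr rfl fun v _ => ?_
    have : ((bn G V v).filter (fun u => lab G V σ u ≠ lab G V σ v)) =
        V.filter (fun u => u < v ∧ G.Adj u v ∧ lab G V σ u ≠ lab G V σ v) := by
      ext u
      simp only [bn, mem_filter]
      tauto
    rw [this]
    simp only [hC]
    rw [← sum_filter, sum_const, nsmul_eq_mul]
    ring
  have e2 : ∑ u ∈ S, ∑ v ∈ S, C u v = - c * ∑ v ∈ S, y v * ((bn G S v).card : ℝ) := by
    rw [sum_comm, mul_sum]
    refine sum_congr rfl fun v hv => ?_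
    have : bn G S v =
        S.filter (fun u => u < v ∧ G.Adj u v ∧ lab G V σ u ≠ lab G V σ v) := by
      ext u
      simp only [bn, mem_filter]
      constructor
      · rintro ⟨h1, h2, h3⟩
        exact ⟨h1, h2, h3, fun h => hind u h1 v hv h2 h h3⟩
      · rintro ⟨h1, h2, h3, -⟩
        exact ⟨h1, h2, h3⟩
    rw [this]
    simp only [hC]
    rw [← sum_filter, sum_const, nsmul_eq_mul]
    ring
  rw [e1, e2] at hsum
  have e3 : ∑ v ∈ S, y v * (a - c * (bn G S v).card) =
      ∑ v ∈ S, y v * a - c * ∑ v ∈ S, y v * ((bn G S v).card : ℝ) := by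
    rw [mul_sum, ← sum_sub_distrib]
    exact sum_congr rfl fun v _ => by ring
  rw [e3]
  have e4 : p ^ 2 * c *
      ∑ v ∈ V, y v * (((bn G V v).filter (fun u => lab G V σ u ≠ lab G V σ v)).card : ℝ) ≤
      p ^ 2 * c * ∑ v ∈ V, y v * ((bn G V v).card - ev G V v / (2 * D)) :=
    mul_le_mul_of_nonneg_left hσ (by positivity)
  linarith

end

end Pool.Agent.Lib.MP_3ae7ea_co
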