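import Mathlib
import Pool.Agent.Lib.MP_3ae7ea_co.Basic

set_option autoImplicit false

/-!
Locally sparse ordered graphs: a derandomised capped weight process.
-/

namespace Pool.Agent.Lib.MP_3ae7ea_co

open Finset Classical

noncomputable section

theorem filter_le_succ (s : Finset ℕ) (k : ℕ) :
    s.filter (fun x => k ≤ x) =
      if k ∈ s then insert k (s.filter (fun x => k + 1 ≤ x)) else s.filter (fun x => k + 1 ≤ x) := by
  by_cases h : k ∈ s
  · rw [if_pos h]
    ext x
    simp only [mem_filter, mem_insert]
    constructor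
    · rintro ⟨h1, h2⟩
      rcases Nat.eq_or_lt_of_le h2 with h3 | h3
      · exact Or.inl h3.symm
      · exact Or.inr ⟨h1, h3⟩
    · rintro (h1 | ⟨h1, h2⟩)
      · rw [h1]
        exact ⟨h, le_rfl⟩
      · exact ⟨h1, by omega⟩
  · rw [if_neg h]
    ext x
    simp only [mem_filter]
    constructor
    · rintro ⟨h1, h2⟩
      refine ⟨h1, ?_⟩
      rcases Nat.eq_or_lt_of_le h2 with h3 | h3
      · exact absurd (h3 ▸ h1) h
      · exact h3
    · rintro ⟨h1, h2⟩
      exact ⟨h1, by omega⟩

theorem sum_filter_le_succ (s : Finset ℕ) (k : ℕ) (f : ℕ → ℝ) :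
    ∑ x ∈ s.filter (fun x => k ≤ x), f x =
      (if k ∈ s then f k else 0) + ∑ x ∈ s.filter (fun x => k + 1 ≤ x), f x := by
  rw [filter_le_succ]
  by_cases h : k ∈ s
  · rw [if_pos h, if_pos h, sum_insert]
    simp
  · rw [if_neg h, if_neg h, zero_add]

/-- number of common back neighbours which are at least `k` -/
def cc (G : SimpleGraph ℕ) (V : Finset ℕ) (k u v : ℕ) : ℕ :=
  ((bn G V u ∩ bn G V v).filter (fun x => k ≤ x)).card

theorem cc_succ (G : SimpleGraph ℕ) (V : Finset ℕ) (k u v : ℕ) :
    cc G V k u v = (if k ∈ bn G V u ∩ bn G V v then 1 else 0) + cc G V (k + 1) u v := by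
  unfold cc
  rw [filter_le_succ]
  by_cases h : k ∈ bn G V u ∩ bn G V v
  · rw [if_pos h, if_pos h, card_insert_of_notMem]
    · rw [add_comm]
    · simp
  · rw [if_neg h, if_neg h, zero_add]

/-- estimate for the future weight of `u` as seen from `v` -/
def mm (G : SimpleGraph ℕ) (V : Finset ℕ) (M : ℝ) (k : ℕ) (W : ℕ → ℝ) (u v : ℕ) : ℝ :=
  min M (W u * (1 / (1 - M)) ^ cc G V k u v)

/-- potential of a vertex -/
def tau (G : SimpleGraph ℕ) (V : Finset ℕ) (M a : ℝ) (k : ℕ) (W S : ℕ → ℝ) (v : ℕ) : ℝ :=
  W v * (1 - a * (S v + ∑ u ∈ (bn G V v).filter (fun u => k ≤ u), mm G V M k W u v))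

/-- total potential -/
def Psi (G : SimpleGraph ℕ) (V : Finset ℕ) (M a : ℝ) (y : ℕ → ℝ) (k : ℕ) (T : Finset ℕ)
    (W S : ℕ → ℝ) : ℝ :=
  ∑ v ∈ T, y v + ∑ v ∈ V.filter (fun v => k ≤ v), y v * tau G V M a k W S v

/-- invariants of the process -/
structure Inv (G : SimpleGraph ℕ) (V : Finset ℕ) (w0 : ℝ) (k : ℕ) (T : Finset ℕ)
    (W S : ℕ → ℝ) : Prop where
  sub : T ⊆ V
  lt : ∀ t ∈ T, t < k
  ind : Indep G T
  zero : ∀ v, k ≤ v → ∀ t ∈ T, G.Adj t v → W v = 0
  wnn : ∀ v, 0 ≤ W v
  snn : ∀ v, 0 ≤ S v
  bd : ∀ v, W v ≤ w0 * Real.exp (2 * S v)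

theorem inv_one_sub_le {q : ℝ} (h0 : 0 ≤ q) (h1 : q ≤ 1 / 2) :
    1 / (1 - q) ≤ Real.exp (2 * q) := by
  have h2 : 0 < 1 - q := by linarith
  rw [div_le_iff₀ h2]
  have h3 : 2 * q + 1 ≤ Real.exp (2 * q) := Real.add_one_le_exp _
  nlinarith [mul_le_mul_of_nonneg_right h3 h2.le]

theorem mm_nonneg {G : SimpleGraph ℕ} {V : Finset ℕ} {M : ℝ} (hM : 0 < M) (hM1 : M ≤ 1 / 2)
    (k : ℕ) {W : ℕ → ℝ} (hW : ∀ v, 0 ≤ W v) (u v : ℕ) : 0 ≤ mm G V M k W u v := by
  unfold mm
  have : 0 < 1 - M := by linarith
  exact le_min hM.le (mul_nonneg (hW u) (by positivity))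

/-- one step of the process -/
theorem step {G : SimpleGraph ℕ} {V : Finset ℕ} {w0 a M : ℝ} (hw0 : 0 < w0) (ha : 0 < a)
    (hMdef : M = w0 * Real.exp (2 / a)) (hM1 : M ≤ 1 / 2) {y : ℕ → ℝ} (hy : ∀ v, 0 ≤ y v)
    {k : ℕ} {T : Finset ℕ} {W S : ℕ → ℝ} (hI : Inv G V w0 k T W S) :
    ∃ T' W' S', Inv G V w0 (k + 1) T' W' S' ∧ Psi G V M a y k T W S ≤ Psi G V M a y (k + 1) T' W' S' := by
  have hM : 0 < M := by rw [hMdef]; positivity
  have hM1' : 0 < 1 - M := by linarith
  by_cases hk : k ∈ V
  swap
  · refine ⟨T, W, S, ⟨hI.sub, fun t ht => (hI.lt t ht).trans (Nat.lt_succ_self k), hI.ind,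
      fun v hv => hI.zero v (by omega), hI.wnn, hI.snn, hI.bd⟩, le_of_eq ?_⟩
    have hkb : ∀ v, k ∉ bn G V v := fun v h => hk (mem_bn.1 h).1
    have hcc : ∀ u v, cc G V k u v = cc G V (k + 1) u v := by
      intro u v
      rw [cc_succ, if_neg, zero_add]
      intro h
      exact hkb u (mem_inter.1 h).1
    have htau : ∀ v, tau G V M a k W S v = tau G V M a (k + 1) W S v := by
      intro v
      unfold tau
      rw [sum_filter_le_succ, if_neg (hkb v), zero_add]
      simp only [mm, hcc]
    unfold Psi
    rw [sum_filter_le_succ, if_neg hk, zero_add]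
    simp only [htau]
  · set q : ℝ := if W k ≤ M then W k else 0 with hq
    have hq0 : 0 ≤ q := by
      rw [hq]
      split_ifs
      · exact hI.wnn k
      · exact le_rfl
    have hqM : q ≤ M := by
      rw [hq]
      split_ifs with h
      · exact h
      · exact hM.le
    have hq1 : 0 < 1 - q := by linarith
    have hqW : q ≤ W k := by
      rw [hq]
      split_ifs with h
      · exact le_rfl
      · exact hI.wnn k
    set W0 : ℕ → ℝ := fun v => if k < v ∧ G.Adj k v then W v / (1 - q) else W v with hW0
    set S0 : ℕ → ℝ := fun v => if k < v ∧ G.Adj k v then S v + q else S v with hS0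
    set W1 : ℕ → ℝ := fun v => if k < v ∧ G.Adj k v then 0 else W v with hW1
    have hinv0 : Inv G V w0 (k + 1) T W0 S0 := by
      refine ⟨hI.sub, fun t ht => (hI.lt t ht).trans (Nat.lt_succ_self k), hI.ind, ?_, ?_, ?_, ?_⟩
      · intro v hv t ht hadj
        have := hI.zero v (by omega) t ht hadj
        simp only [hW0]
        split_ifs
        · rw [this, zero_div]
        · exact this
      · intro v
        simp only [hW0]
        split_ifs
        · exact div_nonneg (hI.wnn v) hq1.le
        · exact hI.wnn v
      · intro v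
        simp only [hS0]
        split_ifs
        · exact add_nonneg (hI.snn v) hq0
        · exact hI.snn v
      · intro v
        simp only [hW0, hS0]
        split_ifs
        · rw [mul_add, Real.exp_add, ← mul_assoc, div_eq_mul_one_div]
          exact mul_le_mul (hI.bd v) (inv_one_sub_le hq0 (by linarith)) (by positivity)
            (by positivity)
        · exact hI.bd v
    have hkey : Psi G V M a y k T W S ≤ (1 - q) * Psi G V M a y (k + 1) T W0 S0 +
        q * Psi G V M a y (k + 1) (insert k T) W1 S := by
      have hkT : k ∉ T := fun h => lt_irrefl k (hI.lt k h)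
      unfold Psi
      rw [sum_filter_le_succ, if_pos hk, sum_insert hkT]
      have h1 : tau G V M a k W S k ≤ q := by
        unfold tau
        have : (bn G V k).filter (fun u => k ≤ u) = ∅ := by
          rw [filter_eq_empty_iff]
          intro x hx
          have := (mem_bn.1 hx).2.1
          omega
        rw [this, sum_empty, add_zero, hq]
        split_ifs with h
        · have h2 : 0 ≤ W k * (a * S k) := mul_nonneg (hI.wnn k) (mul_nonneg ha.le (hI.snn k))
          nlinarith
        · have h2 : w0 * Real.exp (2 / a) < w0 * Real.exp (2 * S k) := by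
            rw [← hMdef]
            exact lt_of_lt_of_le (not_le.1 h) (hI.bd k)
          have h3 : 2 / a < 2 * S k := Real.exp_lt_exp.1 (lt_of_mul_lt_mul_left h2 hw0.le)
          have h4 : 1 < a * S k := by
            rw [div_lt_iff₀ ha] at h3
            nlinarith
          have h5 := hI.wnn k
          nlinarith
      have h2 : ∀ v ∈ V.filter (fun v => k + 1 ≤ v), y v * tau G V M a k W S v ≤
          (1 - q) * (y v * tau G V M a (k + 1) W0 S0 v) + q * (y v * tau G V M a (k + 1) W1 S v) := by
        intro v hv
        rw [mem_filter] at hv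
        have hkv : k < v := hv.2
        have hmain : tau G V M a k W S v ≤
            (1 - q) * tau G V M a (k + 1) W0 S0 v + q * tau G V M a (k + 1) W1 S v := by
          by_cases hadj : G.Adj k v
          · have hkb : k ∈ bn G V v := mem_bn.2 ⟨hk, hkv, hadj⟩
            have hc : k < v ∧ G.Adj k v := ⟨hkv, hadj⟩
            have e1 : W1 v = 0 := by simp only [hW1, if_pos hc]
            have e2 : W0 v = W v / (1 - q) := by simp only [hW0, if_pos hc]
            have e3 : S0 v = S v + q := by simp only [hS0, if_pos hc]
            have e4 : tau G V M a (k + 1) W1 S v = 0 := by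
              unfold tau
              rw [e1, zero_mul]
            have e5 : (1 - q) * tau G V M a (k + 1) W0 S0 v =
                W v * (1 - a * (S v + (q +
                  ∑ u ∈ (bn G V v).filter (fun u => k + 1 ≤ u), mm G V M (k + 1) W0 u v))) := by
              unfold tau
              rw [e2, e3]
              field_simp
              ring
            rw [e4, e5, mul_zero, add_zero]
            unfold tau
            rw [sum_filter_le_succ, if_pos hkb]
            refine mul_le_mul_of_nonneg_left ?_ (hI.wnn v)
            have h3 : q ≤ mm G V M k W k v := by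
              unfold mm
              have : cc G V k k v = 0 := by
                unfold cc
                rw [card_eq_zero, filter_eq_empty_iff]
                intro x hx
                have := (mem_bn.1 (mem_inter.1 hx).1).2.1
                omega
              rw [this, pow_zero, mul_one]
              exact le_min hqM hqW
            have h4 : ∑ u ∈ (bn G V v).filter (fun u => k + 1 ≤ u), mm G V M (k + 1) W0 u v ≤
                ∑ u ∈ (bn G V v).filter (fun u => k + 1 ≤ u), mm G V M k W u v := by
              refine sum_le_sum fun u hu => ?_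
              rw [mem_filter] at hu
              unfold mm
              refine min_le_min_left _ ?_
              rw [cc_succ G V k u v]
              by_cases hku : G.Adj k u
              · have hkbu : k ∈ bn G V u := mem_bn.2 ⟨hk, hu.2, hku⟩
                have hcu : k < u ∧ G.Adj k u := ⟨hu.2, hku⟩
                rw [if_pos (mem_inter.2 ⟨hkbu, hkb⟩)]
                simp only [hW0, if_pos hcu]
                rw [pow_add, pow_one, ← mul_assoc]
                refine mul_le_mul_of_nonneg_right ?_ (by positivity)
                rw [div_eq_mul_one_div]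
                refine mul_le_mul_of_nonneg_left ?_ (hI.wnn u)
                exact one_div_le_one_div_of_le hM1' (by linarith)
              · have hkbu : k ∉ bn G V u ∩ bn G V v := fun h =>
                  hku (mem_bn.1 (mem_inter.1 h).1).2.2
                have hcu : ¬ (k < u ∧ G.Adj k u) := fun h => hku h.2
                rw [if_neg hkbu, zero_add]
                simp only [hW0, if_neg hcu]
                exact le_rfl
            have h5 : a * (S v + (q +
                ∑ u ∈ (bn G V v).filter (fun u => k + 1 ≤ u), mm G V M (k + 1) W0 u v)) ≤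
                a * (S v + (mm G V M k W k v +
                  ∑ u ∈ (bn G V v).filter (fun u => k + 1 ≤ u), mm G V M k W u v)) :=
              mul_le_mul_of_nonneg_left (by linarith) ha.le
            linarith
          · have hkb : k ∉ bn G V v := fun h => hadj (mem_bn.1 h).2.2
            have hc : ¬ (k < v ∧ G.Adj k v) := fun h => hadj h.2
            have e1 : W1 v = W v := by simp only [hW1, if_neg hc]
            have e2 : W0 v = W v := by simp only [hW0, if_neg hc]
            have e3 : S0 v = S v := by simp only [hS0, if_neg hc]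
            unfold tau
            rw [sum_filter_le_succ, if_neg hkb, zero_add, e1, e2, e3]
            have h3 : (1 - q) *
                ∑ u ∈ (bn G V v).filter (fun u => k + 1 ≤ u), mm G V M (k + 1) W0 u v +
                q * ∑ u ∈ (bn G V v).filter (fun u => k + 1 ≤ u), mm G V M (k + 1) W1 u v ≤
                ∑ u ∈ (bn G V v).filter (fun u => k + 1 ≤ u), mm G V M k W u v := by
              rw [mul_sum, mul_sum, ← sum_add_distrib]
              refine sum_le_sum fun u hu => ?_
              rw [mem_filter] at hu
              have hcc : cc G V k u v = cc G V (k + 1) u v := by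
                rw [cc_succ, if_neg, zero_add]
                intro h
                exact hkb (mem_inter.1 h).2
              unfold mm
              rw [hcc]
              set θ : ℝ := (1 / (1 - M)) ^ cc G V (k + 1) u v with hθ
              by_cases hku : G.Adj k u
              · have hcu : k < u ∧ G.Adj k u := ⟨hu.2, hku⟩
                simp only [hW0, hW1, if_pos hcu]
                rw [zero_mul, min_eq_right hM.le, mul_zero, add_zero]
                refine le_min ?_ ?_
                · calc (1 - q) * min M (W u / (1 - q) * θ) ≤ (1 - q) * M :=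
                        mul_le_mul_of_nonneg_left (min_le_left _ _) hq1.le
                    _ ≤ M := by nlinarith
                · calc (1 - q) * min M (W u / (1 - q) * θ) ≤ (1 - q) * (W u / (1 - q) * θ) :=
                        mul_le_mul_of_nonneg_left (min_le_right _ _) hq1.le
                    _ = W u * θ := by field_simp
              · have hcu : ¬ (k < u ∧ G.Adj k u) := fun h => hku h.2
                simp only [hW0, hW1, if_neg hcu]
                apply le_of_eq
                ring
            have h4 := hI.wnn v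
            have h5 := mul_le_mul_of_nonneg_left h3 (mul_nonneg h4 ha.le)
            nlinarith
        calc y v * tau G V M a k W S v ≤ y v * ((1 - q) * tau G V M a (k + 1) W0 S0 v +
              q * tau G V M a (k + 1) W1 S v) := mul_le_mul_of_nonneg_left hmain (hy v)
          _ = _ := by ring
      have h3 : ∑ v ∈ V.filter (fun v => k + 1 ≤ v), y v * tau G V M a k W S v ≤
          (1 - q) * ∑ v ∈ V.filter (fun v => k + 1 ≤ v), y v * tau G V M a (k + 1) W0 S0 v +
          q * ∑ v ∈ V.filter (fun v => k + 1 ≤ v), y v * tau G V M a (k + 1) W1 S v := by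
        rw [mul_sum, mul_sum, ← sum_add_distrib]
        exact sum_le_sum h2
      have h4 : y k * tau G V M a k W S k ≤ y k * q := mul_le_mul_of_nonneg_left h1 (hy k)
      nlinarith
    by_cases hqz : q = 0
    · refine ⟨T, W0, S0, hinv0, ?_⟩
      rw [hqz] at hkey
      linarith
    · have hqpos : 0 < q := lt_of_le_of_ne hq0 (Ne.symm hqz)
      have hWk : 0 < W k := lt_of_lt_of_le hqpos hqW
      have hinv1 : Inv G V w0 (k + 1) (insert k T) W1 S := by
        refine ⟨insert_subset hk hI.sub, ?_, ?_, ?_, ?_, hI.snn, ?_⟩
        · intro t ht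
          rcases mem_insert.1 ht with h | h
          · omega
          · exact (hI.lt t h).trans (Nat.lt_succ_self k)
        · intro u hu v hv huv hadj
          rcases mem_insert.1 hu with hu' | hu'
          · rcases mem_insert.1 hv with hv' | hv'
            · omega
            · have := hI.lt v hv'
              omega
          · rcases mem_insert.1 hv with hv' | hv'
            · rw [hv'] at hadj
              have := hI.zero k le_rfl u hu' hadj
              linarith
            · exact hI.ind u hu' v hv' huv hadj
        · intro v hv t ht hadj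
          simp only [hW1]
          rcases mem_insert.1 ht with h | h
          · rw [if_pos ⟨by omega, h ▸ hadj⟩]
          · split_ifs
            · rfl
            · exact hI.zero v (by omega) t h hadj
        · intro v
          simp only [hW1]
          split_ifs
          · exact le_rfl
          · exact hI.wnn v
        · intro v
          simp only [hW1]
          split_ifs
          · positivity
          · exact hI.bd v
      by_cases hcomp : Psi G V M a y k T W S ≤ Psi G V M a y (k + 1) T W0 S0
      · exact ⟨T, W0, S0, hinv0, hcomp⟩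
      · refine ⟨insert k T, W1, S, hinv1, ?_⟩
        by_contra hcon
        rw [not_le] at hcomp hcon
        have h1 : (1 - q) * Psi G V M a y (k + 1) T W0 S0 < (1 - q) * Psi G V M a y k T W S :=
          mul_lt_mul_of_pos_left hcomp hq1
        have h2 : q * Psi G V M a y (k + 1) (insert k T) W1 S < q * Psi G V M a y k T W S :=
          mul_lt_mul_of_pos_left hcon hqpos
        nlinarith

/-- outcome of the process -/
theorem sparse_core {G : SimpleGraph ℕ} {V : Finset ℕ} {w0 a M : ℝ} (hw0 : 0 < w0) (ha : 0 < a)
    (hMdef : M = w0 * Real.exp (2 / a)) (hM1 : M ≤ 1 / 2) {y : ℕ → ℝ} (hy : ∀ v, 0 ≤ y v) :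
    ∃ I ⊆ V, Indep G I ∧ ∑ v ∈ V, y v * (w0 * (1 - a * ∑ u ∈ bn G V v,
      min M (w0 * (1 / (1 - M)) ^ (bn G V u ∩ bn G V v).card))) ≤ ∑ v ∈ I, y v := by
  have key : ∀ k : ℕ, ∃ T W S, Inv G V w0 k T W S ∧
      Psi G V M a y 0 ∅ (fun _ => w0) (fun _ => 0) ≤ Psi G V M a y k T W S := by
    intro k
    induction k with
    | zero =>
      refine ⟨∅, fun _ => w0, fun _ => 0, ⟨empty_subset _, ?_, ?_, ?_, fun _ => hw0.le,
        fun _ => le_rfl, fun _ => by simp⟩, le_rfl⟩
      · intro t ht
        exact absurd ht (notMem_empty _)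
      · intro t ht
        exact absurd ht (notMem_empty _)
      · intro v _ t ht
        exact absurd ht (notMem_empty _)
    | succ k ih =>
      obtain ⟨T, W, S, h1, h2⟩ := ih
      obtain ⟨T', W', S', h3, h4⟩ := step hw0 ha hMdef hM1 hy h1
      exact ⟨T', W', S', h3, h2.trans h4⟩
  obtain ⟨N, hN⟩ : ∃ N, V ⊆ range N := V.exists_nat_subset_range
  obtain ⟨T, W, S, h1, h2⟩ := key N
  refine ⟨T, h1.sub, h1.ind, ?_⟩
  have e1 : Psi G V M a y N T W S = ∑ v ∈ T, y v := by
    unfold Psi
    have : V.filter (fun v => N ≤ v) = ∅ := by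
      rw [filter_eq_empty_iff]
      intro x hx
      have := mem_range.1 (hN hx)
      omega
    rw [this, sum_empty, add_zero]
  rw [e1] at h2
  refine le_trans (le_of_eq ?_) h2
  unfold Psi tau mm cc
  simp

/-- Sparse lemma. -/
theorem sparse {G : SimpleGraph ℕ} {V : Finset ℕ} {K D : ℝ} (hK : 1 ≤ K)
    (hD : 4 * K * Real.exp (20 * K) ≤ D) (hdeg : ∀ v ∈ V, ((bn G V v).card : ℝ) ≤ D)
    (hev : ∀ v ∈ V, (ev G V v : ℝ) ≤ 1 / (16 * K * Real.exp (20 * K) ^ 2) * D ^ 2)
    {y : ℕ → ℝ} (hy : ∀ v, 0 ≤ y v) :
    ∃ I ⊆ V, Indep G I ∧ K / D * ∑ v ∈ V, y v ≤ ∑ v ∈ I, y v := by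
  set B : ℝ := Real.exp (20 * K) with hB
  have hB1 : 1 ≤ B := by
    rw [hB]
    exact Real.one_le_exp (by linarith)
  have hB0 : 0 < B := by linarith
  have hD0 : 0 < D := lt_of_lt_of_le (by positivity) hD
  have hK0 : 0 < K := by linarith
  set w0 : ℝ := 2 * K / D with hw0d
  have hw0 : 0 < w0 := by positivity
  set M : ℝ := w0 * B with hMd
  have hM0 : 0 < M := by positivity
  have hM1 : M ≤ 1 / 2 := by
    rw [hMd, hw0d, div_mul_eq_mul_div, div_le_iff₀ hD0]
    linarith
  obtain ⟨I, hI1, hI2, hI3⟩ := sparse_core (G := G) (V := V) (a := 1 / (10 * K)) (M := M) hw0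
    (by positivity) (by
      rw [hMd, hB]
      congr 2
      field_simp
      ring) hM1 hy
  refine ⟨I, hI1, hI2, le_trans ?_ hI3⟩
  rw [mul_sum]
  refine sum_le_sum fun v hv => ?_
  have hbound : ∑ u ∈ bn G V v, min M (w0 * (1 / (1 - M)) ^ (bn G V u ∩ bn G V v).card) ≤
      5 * K := by
    have hterm : ∀ u ∈ bn G V v, min M (w0 * (1 / (1 - M)) ^ (bn G V u ∩ bn G V v).card) ≤
        2 * w0 + (8 * K * B) * M / D * ((bn G V u ∩ bn G V v).card : ℝ) := by
      intro u _
      set c := (bn G V u ∩ bn G V v).card with hc
      by_cases hcase : (8 * K * B) * (c : ℝ) ≤ D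
      · refine (min_le_right _ _).trans ?_
        have h1 : (1 / (1 - M)) ^ c ≤ 2 := by
          calc (1 / (1 - M)) ^ c ≤ (Real.exp (2 * M)) ^ c :=
                pow_le_pow_left₀ (by
                  have : 0 < 1 - M := by linarith
                  positivity) (inv_one_sub_le hM0.le hM1) c
            _ = Real.exp (c * (2 * M)) := (Real.exp_nat_mul _ _).symm
            _ ≤ Real.exp (1 / 2) := by
                apply Real.exp_le_exp.2
                rw [hMd, hw0d]
                have : (c : ℝ) * (2 * (2 * K / D * B)) = (8 * K * B * c) / D / 2 := by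
                  field_simp
                  ring
                rw [this]
                have h2 : 8 * K * B * c / D ≤ 1 := by
                  rw [div_le_one hD0]
                  exact hcase
                linarith
            _ ≤ 2 := by
                have h3 : Real.exp (1 / 2) ^ 2 = Real.exp 1 := by
                  rw [← Real.exp_nat_mul]
                  norm_num
                have h4 := Real.exp_one_lt_d9
                have h5 := Real.exp_pos (1 / 2)
                nlinarith
        have h2 : w0 * (1 / (1 - M)) ^ c ≤ w0 * 2 := mul_le_mul_of_nonneg_left h1 hw0.le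
        have h3 : 0 ≤ (8 * K * B) * M / D * (c : ℝ) := by positivity
        linarith
      · refine (min_le_left _ _).trans ?_
        rw [not_le] at hcase
        have h1 : M ≤ (8 * K * B) * M / D * (c : ℝ) := by
          have : (8 * K * B) * M / D * (c : ℝ) = M * ((8 * K * B * c) / D) := by ring
          rw [this]
          have h2 : 1 ≤ 8 * K * B * c / D := by
            rw [one_le_div hD0]
            exact hcase.le
          nlinarith
        linarith
    refine (sum_le_sum hterm).trans ?_
    rw [sum_add_distrib, sum_const, nsmul_eq_mul, ← mul_sum, ← Nat.cast_sum]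
    have e1 : ((∑ u ∈ bn G V v, (bn G V u ∩ bn G V v).card : ℕ) : ℝ) = (ev G V v : ℝ) := rfl
    rw [e1]
    have h1 : ((bn G V v).card : ℝ) * (2 * w0) ≤ 4 * K := by
      have := mul_le_mul_of_nonneg_right (hdeg v hv) (by positivity : (0 : ℝ) ≤ 2 * w0)
      refine this.trans (le_of_eq ?_)
      rw [hw0d]
      field_simp
      ring
    have h2 : 8 * K * B * M / D * (ev G V v : ℝ) ≤ K := by
      have := mul_le_mul_of_nonneg_left (hev v hv)
        (by positivity : (0 : ℝ) ≤ 8 * K * B * M / D)
      refine this.trans (le_of_eq ?_)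
      rw [hMd, hw0d]
      field_simp
      ring
    linarith
  have h1 : (1 / 2 : ℝ) ≤ 1 - 1 / (10 * K) *
      ∑ u ∈ bn G V v, min M (w0 * (1 / (1 - M)) ^ (bn G V u ∩ bn G V v).card) := by
    have h2 := mul_le_mul_of_nonneg_left hbound (by positivity : (0 : ℝ) ≤ 1 / (10 * K))
    have h3 : 1 / (10 * K) * (5 * K) = 1 / 2 := by
      field_simp
      norm_num
    linarith
  have h2 := mul_le_mul_of_nonneg_left h1 hw0.le
  have h3 : w0 * (1 / 2) = K / D := by
    rw [hw0d]
    ring
  rw [h3] at h2
  calc K / D * y v = y v * (K / D) := mul_comm _ _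
    _ ≤ _ := mul_le_mul_of_nonneg_left h2 (hy v)

end

end Pool.Agent.Lib.MP_3ae7ea_co
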