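import Mathlib
import Pool.Agent.Lib.MP_3ae7ea_co.Basic
import Pool.Agent.Lib.MP_3ae7ea_co.MinHash
import Pool.Agent.Lib.MP_3ae7ea_co.Sparse

set_option autoImplicit false

namespace Pool.Agent.Lib.MP_3ae7ea_co

open Finset Classical

noncomputable section

/-- weighted independence ratio at least `K / D` for ordered graphs without `r`-cliques and with
back degrees at most `D` -/
def Claim (r : ℕ) : Prop := ∀ K : ℝ, 0 < K → ∃ D0 : ℝ, 0 < D0 ∧ ∀ D : ℝ, D0 ≤ D →
  ∀ (G : SimpleGraph ℕ) (V : Finset ℕ), KFree G r V → (∀ v ∈ V, ((bn G V v).card : ℝ) ≤ D) →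
    ∀ y : ℕ → ℝ, (∀ v, 0 ≤ y v) →
      ∃ I ⊆ V, Indep G I ∧ K / D * ∑ v ∈ V, y v ≤ ∑ v ∈ I, y v

/-- local version with a linear function of the back degree -/
def Ach (r : ℕ) (a b : ℝ) : Prop := ∃ d0 : ℝ, 1 ≤ d0 ∧ ∀ d : ℝ, d0 ≤ d →
  ∀ (G : SimpleGraph ℕ) (V : Finset ℕ), KFree G r V → ∀ y : ℕ → ℝ, (∀ v, 0 ≤ y v) →
    ∃ I ⊆ V, Indep G I ∧ b / d * ∑ v ∈ V, y v * (a - (bn G V v).card / d) ≤ ∑ v ∈ I, y v

theorem ach_base (r : ℕ) : Ach r 1 1 := by
  refine ⟨1, le_rfl, ?_⟩
  intro d hd G V _ y hy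
  have hd0 : 0 < d := by linarith
  set C : ℕ → ℕ → ℝ := fun u v => if u < v ∧ G.Adj u v then - y v else 0 with hC
  obtain ⟨S, hS, -, hsum⟩ := round (G := G) V (fun v : ℕ => v) (1 / d) y C (by positivity)
    (by
      intro u v huv
      have : u = v := huv
      simp only [hC]
      rw [if_neg]
      rintro ⟨h, -⟩
      omega)
    (by
      intro l z hz
      refine ⟨V.filter (fun v => v = l), Subset.rfl, ?_, ?_⟩
      · intro u hu v hv huv
        have h1 := (mem_filter.1 hu).2
        have h2 := (mem_filter.1 hv).2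
        omega
      · have h1 : 0 ≤ ∑ v ∈ V.filter (fun v => v = l), z v := sum_nonneg fun v _ => hz v
        have h2 : 1 / d ≤ 1 := by
          rw [div_le_one hd0]
          exact hd
        nlinarith)
  refine ⟨S.filter (fun v => bn G S v = ∅), (filter_subset _ _).trans hS, ?_, ?_⟩
  · intro u hu v hv huv hadj
    have h1 := (mem_filter.1 hv).2
    have h2 : u ∈ bn G S v := mem_bn.2 ⟨(mem_filter.1 hu).1, huv, hadj⟩
    rw [h1] at h2
    exact notMem_empty _ h2
  · have e1 : ∑ u ∈ V, ∑ v ∈ V, C u v = - ∑ v ∈ V, y v * ((bn G V v).card : ℝ) := by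
      rw [sum_comm, ← sum_neg_distrib]
      refine sum_congr rfl fun v _ => ?_
      simp only [hC]
      rw [← sum_filter, sum_const, nsmul_eq_mul, bn]
      ring
    have e2 : ∑ u ∈ S, ∑ v ∈ S, C u v = - ∑ v ∈ S, y v * ((bn G S v).card : ℝ) := by
      rw [sum_comm, ← sum_neg_distrib]
      refine sum_congr rfl fun v _ => ?_
      simp only [hC]
      rw [← sum_filter, sum_const, nsmul_eq_mul, bn]
      ring
    rw [e1, e2] at hsum
    have e3 : 1 / d * ∑ v ∈ V, y v * (1 - (bn G V v).card / d) =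
        1 / d * ∑ v ∈ V, y v + (1 / d) ^ 2 * - ∑ v ∈ V, y v * ((bn G V v).card : ℝ) := by
      rw [← sum_neg_distrib, mul_sum, mul_sum, mul_sum, ← sum_add_distrib]
      refine sum_congr rfl fun v _ => ?_
      field_simp
      ring
    rw [e3]
    refine hsum.trans ?_
    rw [← sub_eq_add_neg, ← sum_sub_distrib, sum_filter]
    refine sum_le_sum fun v hv => ?_
    by_cases h : bn G S v = ∅
    · rw [if_pos h, h, card_empty]
      simp
    · rw [if_neg h]
      have h1 : (1 : ℝ) ≤ (bn G S v).card := by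
        have : 0 < (bn G S v).card := card_pos.2 (nonempty_iff_ne_empty.2 h)
        exact_mod_cast this
      nlinarith [hy v]

/-- parameter of the sparse lemma -/
def dl (K : ℝ) : ℝ := 1 / (16 * K * Real.exp (20 * K) ^ 2)

theorem dl_pos {K : ℝ} (hK : 0 < K) : 0 < dl K := by
  unfold dl
  positivity

/-- increment step -/
theorem ach_step {r : ℕ} (hr : Claim r) {A L a b : ℝ} (hA : 1 ≤ A) (hL : 1 ≤ L)
    (hb0 : 0 < b) (hb1 : b ≤ 1) (hh : dl (A * L) * L / 2 ≤ A)
    (haL : a + dl (A * L) * L / 2 ≤ L) (h : Ach (r + 1) a b) :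
    Ach (r + 1) (a + dl (A * L) * L / 2) (b * (1 - dl (A * L) * L / 2 / A)) := by
  obtain ⟨d0, hd0, hach⟩ := h
  have hd0' : 0 < d0 := by linarith
  have hL0 : 0 < L := by linarith
  have hA0 : 0 < A := by linarith
  have hAL : 1 ≤ A * L := by nlinarith
  obtain ⟨D1, hD1, hcl⟩ := hr (L * d0) (by positivity)
  set δ : ℝ := dl (A * L) with hδ
  have hδ0 : 0 < δ := dl_pos (by positivity)
  set η : ℝ := δ * L / 2 with hη
  have hη0 : 0 < η := by positivity
  set D2 : ℝ := 4 * (A * L) * Real.exp (20 * (A * L)) with hD2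
  refine ⟨max d0 (max D1 D2), hd0.trans (le_max_left _ _), ?_⟩
  intro d hd G V hV y hy
  have hdd0 : d0 ≤ d := (le_max_left _ _).trans hd
  have hdD1 : D1 ≤ d := ((le_max_left _ _).trans (le_max_right _ _)).trans hd
  have hdD2 : D2 ≤ d := ((le_max_right _ _).trans (le_max_right _ _)).trans hd
  have hd0p : 0 < d := by linarith
  set D : ℝ := L * d with hDdef
  have hD0 : 0 < D := by positivity
  have hdD : d ≤ D := by
    rw [hDdef]
    nlinarith
  set V' : Finset ℕ := V.filter (fun v => ((bn G V v).card : ℝ) ≤ D) with hV'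
  have hV'V : V' ⊆ V := filter_subset _ _
  have hdeg : ∀ v ∈ V', ((bn G V' v).card : ℝ) ≤ D := by
    intro v hv
    refine le_trans ?_ (mem_filter.1 hv).2
    exact_mod_cast card_bn_mono hV'V v
  have hV'K : KFree G (r + 1) V' := hV.mono hV'V
  -- sparse run
  set Vs : Finset ℕ := V'.filter (fun v => (ev G V' v : ℝ) ≤ δ * D ^ 2) with hVs
  have hVsV' : Vs ⊆ V' := filter_subset _ _
  obtain ⟨I2, hI2, hI2ind, hI2sum⟩ := sparse (G := G) (V := Vs) (K := A * L) (D := D) hAL
    (hdD2.trans hdD) (by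
      intro v hv
      refine le_trans ?_ (hdeg v (hVsV' hv))
      exact_mod_cast card_bn_mono hVsV' v) (by
      intro v hv
      refine le_trans ?_ (mem_filter.1 hv).2
      exact_mod_cast ev_mono hVsV' v) hy
  -- dense run
  obtain ⟨S, hS, hSsum⟩ := dense (G := G) (V := V') D hD0 hdeg (d0 / d) (by positivity)
    (by
      rw [div_le_one hd0p]
      exact hdd0)
    (by
      intro x hx C hC hadj z hz
      obtain ⟨J, hJ, hJind, hJsum⟩ := hcl D (hdD1.trans hdD) G C
        (hV'K.fwd hx hC hadj) (by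
          intro v hv
          refine le_trans ?_ (hdeg v (hC hv))
          exact_mod_cast card_bn_mono hC v) z hz
      refine ⟨J, hJ, hJind, ?_⟩
      have : L * d0 / D = d0 / d := by
        rw [hDdef]
        field_simp
      rw [← this]
      exact hJsum)
    a (1 / d0) (by positivity) y hy
  obtain ⟨I1, hI1, hI1ind, hI1sum⟩ := hach d0 le_rfl G S (hV'K.mono hS) y hy
  have hdense : b / d * ∑ v ∈ V', y v * (a - (bn G V' v).card / d + ev G V' v / (2 * D * d)) ≤
      ∑ v ∈ I1, y v := by
    refine le_trans ?_ hI1sum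
    have e1 : ∑ v ∈ S, y v * (a - (bn G S v).card / d0) =
        ∑ v ∈ S, y v * (a - 1 / d0 * (bn G S v).card) := by
      refine sum_congr rfl fun v _ => ?_
      ring
    rw [e1]
    have h1 := mul_le_mul_of_nonneg_left hSsum (by positivity : 0 ≤ b / d0)
    refine le_trans (le_of_eq ?_) h1
    rw [mul_sub, mul_sum, mul_sum, mul_sum, mul_sum, mul_sum, ← sum_sub_distrib]
    refine sum_congr rfl fun v _ => ?_
    field_simp
    ring
  -- combination
  set τ : ℝ := η / A with hτ
  have hτ0 : 0 ≤ τ := by positivity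
  have hτ1 : τ ≤ 1 := by
    rw [hτ, div_le_one hA0]
    exact hh
  have hsparse : A / d * ∑ v ∈ Vs, y v ≤ ∑ v ∈ I2, y v := by
    refine le_trans (le_of_eq ?_) hI2sum
    rw [hDdef]
    field_simp
  have hcomb : b * (1 - τ) / d * ∑ v ∈ V, y v * (a + η - (bn G V v).card / d) ≤
      (1 - τ) * ∑ v ∈ I1, y v + τ * ∑ v ∈ I2, y v := by
    have h1 : (1 - τ) * (b / d *
        ∑ v ∈ V', y v * (a - (bn G V' v).card / d + ev G V' v / (2 * D * d))) +
        τ * (A / d * ∑ v ∈ Vs, y v) ≤ (1 - τ) * ∑ v ∈ I1, y v + τ * ∑ v ∈ I2, y v :=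
      add_le_add (mul_le_mul_of_nonneg_left hdense (by linarith))
        (mul_le_mul_of_nonneg_left hsparse hτ0)
    refine le_trans ?_ h1
    have h2 : b * (1 - τ) / d * ∑ v ∈ V, y v * (a + η - (bn G V v).card / d) ≤
        b * (1 - τ) / d * ∑ v ∈ V', y v * (a + η - (bn G V' v).card / d) := by
      refine mul_le_mul_of_nonneg_left ?_ (by
        have : 0 ≤ 1 - τ := by linarith
        positivity)
      have h3 : ∑ v ∈ V, y v * (a + η - (bn G V v).card / d) ≤
          ∑ v ∈ V', y v * (a + η - (bn G V v).card / d) := by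
        rw [hV', sum_filter]
        refine sum_le_sum fun v _ => ?_
        split_ifs with hc
        · exact le_rfl
        · rw [not_le] at hc
          have h4 : L < (bn G V v).card / d := by
            rw [lt_div_iff₀ hd0p]
            exact hc
          exact mul_nonpos_of_nonneg_of_nonpos (hy v) (by linarith)
      refine h3.trans (sum_le_sum fun v _ => ?_)
      refine mul_le_mul_of_nonneg_left ?_ (hy v)
      have h5 : ((bn G V' v).card : ℝ) / d ≤ (bn G V v).card / d := by
        refine div_le_div_of_nonneg_right ?_ hd0p.le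
        exact_mod_cast card_bn_mono hV'V v
      linarith
    refine h2.trans ?_
    have e2 : τ * (A / d * ∑ v ∈ Vs, y v) =
        ∑ v ∈ V', if (ev G V' v : ℝ) ≤ δ * D ^ 2 then η / d * y v else 0 := by
      rw [hVs, ← sum_filter, ← mul_sum, hτ]
      field_simp
    rw [e2, mul_sum, mul_sum, mul_sum, ← sum_add_distrib]
    refine sum_le_sum fun v _ => ?_
    have hyv := hy v
    have h1τ : 0 ≤ 1 - τ := by linarith
    split_ifs with hc
    · have h3 : 0 ≤ (ev G V' v : ℝ) / (2 * D * d) := by positivity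
      have h4 : (1 - τ) * (b / d * (y v * (a - (bn G V' v).card / d + ev G V' v / (2 * D * d)))) +
          η / d * y v - b * (1 - τ) / d * (y v * (a + η - (bn G V' v).card / d)) =
          (1 - τ) * (b / d) * y v * (ev G V' v / (2 * D * d)) +
            y v * η / d * (1 - b * (1 - τ)) := by
        ring
      have h5 : 0 ≤ (1 - τ) * (b / d) * y v * (ev G V' v / (2 * D * d)) := by positivity
      have h6 : b * (1 - τ) ≤ 1 := by nlinarith
      have h7 : 0 ≤ y v * η / d * (1 - b * (1 - τ)) :=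
        mul_nonneg (by positivity) (by linarith)
      linarith
    · rw [not_le] at hc
      have h3 : η ≤ (ev G V' v : ℝ) / (2 * D * d) := by
        rw [le_div_iff₀ (by positivity)]
        refine le_trans (le_of_eq ?_) hc.le
        rw [hη, hDdef]
        ring
      have h4 : (1 - τ) * (b / d * (y v * (a - (bn G V' v).card / d + ev G V' v / (2 * D * d)))) +
          0 - b * (1 - τ) / d * (y v * (a + η - (bn G V' v).card / d)) =
          (1 - τ) * (b / d) * y v * (ev G V' v / (2 * D * d) - η) := by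
        ring
      have h5 : 0 ≤ (1 - τ) * (b / d) * y v * (ev G V' v / (2 * D * d) - η) :=
        mul_nonneg (by positivity) (by linarith)
      linarith
  have h1τ : 0 ≤ 1 - τ := by linarith
  have hgen : ∀ s1 s2 : ℝ, s1 ≤ s2 → (1 - τ) * s1 + τ * s2 ≤ s2 := by
    intro s1 s2 hs
    have := mul_le_mul_of_nonneg_left hs h1τ
    linarith
  have hgen' : ∀ s1 s2 : ℝ, s2 ≤ s1 → (1 - τ) * s1 + τ * s2 ≤ s1 := by
    intro s1 s2 hs
    have := mul_le_mul_of_nonneg_left hs hτ0
    linarith
  by_cases hcmp : ∑ v ∈ I1, y v ≤ ∑ v ∈ I2, y v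
  · exact ⟨I2, (hI2.trans hVsV').trans hV'V, hI2ind, hcomb.trans (hgen _ _ hcmp)⟩
  · exact ⟨I1, (hI1.trans hS).trans hV'V, hI1ind, hcomb.trans (hgen' _ _ (not_le.1 hcmp).le)⟩

theorem ach_iter {r : ℕ} (hr : Claim r) {A L η : ℝ} (hA : 1 ≤ A) (hL : 1 ≤ L)
    (hηd : η = dl (A * L) * L / 2) (hη1 : η ≤ 1) :
    ∀ n : ℕ, 1 + n * η ≤ L → Ach (r + 1) (1 + n * η) ((1 - η / A) ^ n) := by
  have hη0 : 0 < η := by
    rw [hηd]
    have := dl_pos (K := A * L) (by positivity)
    positivity
  have hb : 0 ≤ 1 - η / A := by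
    have : η / A ≤ 1 := by
      rw [div_le_one (by linarith)]
      linarith
    linarith
  intro n
  induction n with
  | zero =>
    intro _
    simpa using ach_base (r + 1)
  | succ n ih =>
    intro hn
    have hn' : 1 + (n : ℝ) * η ≤ L := by
      push_cast at hn
      nlinarith
    by_cases hb' : 1 - η / A = 0
    · -- then trivial
      rw [hb', pow_succ, mul_zero]
      refine ⟨1, le_rfl, ?_⟩
      intro d _ G V _ y hy
      refine ⟨∅, empty_subset _, ?_, ?_⟩
      · intro u hu
        exact absurd hu (notMem_empty _)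
      · simp
    · have hbpos : 0 < 1 - η / A := lt_of_le_of_ne hb (Ne.symm hb')
      have h1 := ach_step hr (a := 1 + n * η) (b := (1 - η / A) ^ n) hA hL (by positivity)
        (pow_le_one₀ hb (by
          have : 0 ≤ η / A := by positivity
          linarith)) (by rw [← hηd]; linarith) (by
          rw [← hηd]
          push_cast at hn
          linarith) (ih hn')
      rw [← hηd] at h1
      have e1 : 1 + ((n + 1 : ℕ) : ℝ) * η = 1 + n * η + η := by
        push_cast
        ring
      rw [e1, pow_succ]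
      exact h1

theorem claim_succ {r : ℕ} (hr : Claim r) : Claim (r + 1) := by
  intro K hK
  set A : ℝ := max 1 (32 * K) with hAdef
  have hA : 1 ≤ A := le_max_left _ _
  have hAK : 32 * K ≤ A := le_max_right _ _
  have hA0 : 0 < A := by linarith
  set L : ℝ := A + 2 with hLdef
  have hL : 1 ≤ L := by linarith
  set η : ℝ := dl (A * L) * L / 2 with hηd
  have hη0 : 0 < η := by
    have := dl_pos (K := A * L) (by positivity)
    positivity
  have hη1 : η ≤ 1 := by
    rw [hηd]
    unfold dl
    have h1 : (1 : ℝ) ≤ Real.exp (20 * (A * L)) ^ 2 :=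
      one_le_pow₀ (Real.one_le_exp (by positivity))
    have h2 : 0 < 16 * (A * L) * Real.exp (20 * (A * L)) ^ 2 := by positivity
    rw [div_mul_eq_mul_div, div_div, div_le_one (by positivity)]
    have h3 : 16 * (A * L) * 1 ≤ 16 * (A * L) * Real.exp (20 * (A * L)) ^ 2 :=
      mul_le_mul_of_nonneg_left h1 (by positivity)
    nlinarith
  -- number of steps
  set n : ℕ := ⌊A / (2 * η)⌋₊ with hn
  have hn1 : (n : ℝ) * η ≤ A / 2 := by
    have h1 : (n : ℝ) ≤ A / (2 * η) := Nat.floor_le (by positivity)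
    have h2 := mul_le_mul_of_nonneg_right h1 hη0.le
    refine h2.trans (le_of_eq ?_)
    field_simp
  have hn2 : A / 2 - 1 ≤ (n : ℝ) * η := by
    have h1 : A / (2 * η) < n + 1 := Nat.lt_floor_add_one _
    have h2 := mul_lt_mul_of_pos_right h1 hη0
    have h3 : A / (2 * η) * η = A / 2 := by field_simp
    rw [h3] at h2
    nlinarith
  obtain ⟨d0, hd0, hach⟩ := ach_iter hr hA hL hηd hη1 n (by linarith)
  have hb : (1 / 2 : ℝ) ≤ (1 - η / A) ^ n := by
    have h1 := one_add_mul_le_pow (a := -(η / A)) (by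
      have : η / A ≤ 1 := by
        rw [div_le_one hA0]
        linarith
      linarith) n
    have h2 : (n : ℝ) * (η / A) ≤ 1 / 2 := by
      rw [← mul_div_assoc, div_le_iff₀ hA0]
      linarith
    have h3 : 1 + -(η / A) = 1 - η / A := by ring
    rw [h3] at h1
    linarith
  refine ⟨A * d0, by positivity, ?_⟩
  intro D hD G V hV hdeg y hy
  have hD0 : 0 < D := lt_of_lt_of_le (by positivity) hD
  set d : ℝ := 4 * D / A with hd
  have hd0d : d0 ≤ d := by
    rw [hd, le_div_iff₀ hA0]
    nlinarith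
  have hdpos : 0 < d := by positivity
  obtain ⟨I, hI, hIind, hIsum⟩ := hach d hd0d G V hV y hy
  refine ⟨I, hI, hIind, le_trans ?_ hIsum⟩
  have h1 : ∀ v ∈ V, A / 4 * y v ≤ y v * (1 + n * η - (bn G V v).card / d) := by
    intro v hv
    have h2 : ((bn G V v).card : ℝ) / d ≤ A / 4 := by
      rw [div_le_iff₀ hdpos, hd]
      have h3 : A / 4 * (4 * D / A) = D := by field_simp
      rw [h3]
      exact hdeg v hv
    have h3 : A / 4 ≤ 1 + n * η - (bn G V v).card / d := by linarith
    calc A / 4 * y v = y v * (A / 4) := mul_comm _ _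
      _ ≤ _ := mul_le_mul_of_nonneg_left h3 (hy v)
  have h2 : A / 4 * ∑ v ∈ V, y v ≤ ∑ v ∈ V, y v * (1 + n * η - (bn G V v).card / d) := by
    rw [mul_sum]
    exact sum_le_sum h1
  have hY : 0 ≤ ∑ v ∈ V, y v := sum_nonneg fun v _ => hy v
  calc K / D * ∑ v ∈ V, y v ≤ (1 / 2) / d * (A / 4 * ∑ v ∈ V, y v) := by
        rw [← mul_assoc]
        refine mul_le_mul_of_nonneg_right ?_ hY
        have h3 : (1 / 2) / d * (A / 4) = A ^ 2 / 32 / D := by
          rw [hd]
          field_simp
          norm_num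
        rw [h3]
        refine div_le_div_of_nonneg_right ?_ hD0.le
        nlinarith
    _ ≤ (1 / 2) / d * ∑ v ∈ V, y v * (1 + n * η - (bn G V v).card / d) :=
        mul_le_mul_of_nonneg_left h2 (by positivity)
    _ ≤ (1 - η / A) ^ n / d * ∑ v ∈ V, y v * (1 + n * η - (bn G V v).card / d) := by
        refine mul_le_mul_of_nonneg_right ?_ ?_
        · exact div_le_div_of_nonneg_right hb hdpos.le
        · exact le_trans (by positivity) h2

theorem claim_zero : Claim 0 := by
  intro K _
  refine ⟨1, one_pos, ?_⟩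
  intro D _ G V hV
  exact absurd (SimpleGraph.isNClique_empty.2 rfl) (hV ∅ (empty_subset _))

/-- every ordered graph without `r`-cliques satisfies the claim -/
theorem claim (r : ℕ) : Claim r := by
  induction r with
  | zero => exact claim_zero
  | succ r ih => exact claim_succ ih

end

end Pool.Agent.Lib.MP_3ae7ea_co
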