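import Mathlib
import Pool.Agent.Lib.MP_3ae7ea_co.Main

set_option autoImplicit false

namespace Pool.Agent.Lib.MP_3ae7ea_co

open Finset Classical

noncomputable section

/-- degeneracy ordering -/
theorem exists_order {α : Type} [Fintype α] (G : SimpleGraph α) (d : ℕ)
    (h : ∀ S : Finset α, S.Nonempty → ∃ v ∈ S, (S.filter (fun u => G.Adj v u)).card ≤ d) :
    ∀ (m : ℕ) (S : Finset α), S.card = m → ∃ f : α → ℕ, (∀ u ∈ S, f u < m) ∧ Set.InjOn f S ∧
      ∀ v ∈ S, (S.filter (fun u => f u < f v ∧ G.Adj u v)).card ≤ d := by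
  intro m
  induction m with
  | zero =>
    intro S hS
    rw [card_eq_zero] at hS
    subst hS
    refine ⟨fun _ => 0, ?_, ?_, ?_⟩
    · intro u hu
      exact absurd hu (notMem_empty _)
    · intro u hu
      exact absurd hu (by simp)
    · intro u hu
      exact absurd hu (notMem_empty _)
  | succ m ih =>
    intro S hS
    obtain ⟨v, hv, hvd⟩ := h S (card_pos.1 (by omega))
    obtain ⟨f, h1, h2, h3⟩ := ih (S.erase v) (by rw [card_erase_of_mem hv, hS]; rfl)
    refine ⟨Function.update f v m, ?_, ?_, ?_⟩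
    · intro u hu
      by_cases huv : u = v
      · rw [huv, Function.update_self]
        exact Nat.lt_succ_self m
      · rw [Function.update_of_ne huv]
        exact (h1 u (mem_erase.2 ⟨huv, hu⟩)).trans (Nat.lt_succ_self m)
    · intro a ha b hb hab
      by_cases hav : a = v
      · by_cases hbv : b = v
        · rw [hav, hbv]
        · rw [hav, Function.update_self, Function.update_of_ne hbv] at hab
          have := h1 b (mem_erase.2 ⟨hbv, hb⟩)
          omega
      · by_cases hbv : b = v
        · rw [hbv, Function.update_self, Function.update_of_ne hav] at hab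
          have := h1 a (mem_erase.2 ⟨hav, ha⟩)
          omega
        · rw [Function.update_of_ne hav, Function.update_of_ne hbv] at hab
          exact h2 (mem_coe.2 (mem_erase.2 ⟨hav, ha⟩)) (mem_coe.2 (mem_erase.2 ⟨hbv, hb⟩)) hab
    · intro w hw
      by_cases hwv : w = v
      · subst hwv
        refine le_trans (card_le_card ?_) hvd
        intro u hu
        rw [mem_filter] at hu ⊢
        exact ⟨hu.1, hu.2.2.symm⟩
      · refine le_trans (card_le_card ?_) (h3 w (mem_erase.2 ⟨hwv, hw⟩))
        intro u hu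
        rw [mem_filter] at hu ⊢
        rw [Function.update_of_ne hwv] at hu
        have huv : u ≠ v := by
          rintro rfl
          rw [Function.update_self] at hu
          have := h1 w (mem_erase.2 ⟨hwv, hw⟩)
          omega
        rw [Function.update_of_ne huv] at hu
        exact ⟨mem_erase.2 ⟨huv, hu.1⟩, hu.2⟩

/-- linear programming duality for fractional colourings -/
theorem duality {ι : Type} [Fintype ι] [DecidableEq ι] (𝓘 : Finset (Finset ι)) (c : ℝ)
    (H : ∀ y : ι → ℝ, (∀ v, 0 ≤ y v) → ∃ I ∈ 𝓘, c * ∑ v, y v ≤ ∑ v ∈ I, y v) :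
    ∃ l : Finset ι → ℝ, (∀ I, 0 ≤ l I) ∧ (∀ I, l I ≠ 0 → I ∈ 𝓘) ∧ (∑ I, l I = 1) ∧
      ∀ v, c ≤ ∑ I ∈ univ.filter (fun I : Finset ι => v ∈ I), l I := by
  set T : (Finset ι → ℝ) →ₗ[ℝ] (ι → ℝ) :=
    LinearMap.pi fun v => ∑ I ∈ univ.filter (fun I : Finset ι => v ∈ I), LinearMap.proj I with hT
  have hTapp : ∀ l v, T l v = ∑ I ∈ univ.filter (fun I : Finset ι => v ∈ I), l I := by
    intro l v
    simp [hT, LinearMap.sum_apply]
  set Δ : Set (Finset ι → ℝ) := {l | l ∈ stdSimplex ℝ (Finset ι) ∧ ∀ I, I ∉ 𝓘 → l I = 0} with hΔ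
  have hTc : Continuous T := LinearMap.continuous_of_finiteDimensional T
  have hZ : IsClosed {l : Finset ι → ℝ | ∀ I, I ∉ 𝓘 → l I = 0} := by
    have : {l : Finset ι → ℝ | ∀ I, I ∉ 𝓘 → l I = 0} =
        ⋂ I : Finset ι, ⋂ (_ : I ∉ 𝓘), {l : Finset ι → ℝ | l I = 0} := by
      ext l
      simp
    rw [this]
    refine isClosed_iInter fun I => isClosed_iInter fun _ => ?_
    exact isClosed_eq (continuous_apply I) continuous_const
  have hΔc : IsCompact Δ := (isCompact_stdSimplex ℝ (Finset ι)).inter_right hZ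
  have hΔv : Convex ℝ Δ := by
    refine (convex_stdSimplex ℝ (Finset ι)).inter ?_
    intro x hx y hy a b _ _ _ I hI
    have h1 := hx I hI
    have h2 := hy I hI
    simp only [Pi.add_apply, Pi.smul_apply, smul_eq_mul, h1, h2, mul_zero, add_zero]
  by_cases hdis : Disjoint (T '' Δ) (Set.Ici (fun _ : ι => c))
  · exfalso
    obtain ⟨f, u, v, h1, h2, h3⟩ := geometric_hahn_banach_compact_closed (hΔv.linear_image T)
      (hΔc.image hTc) (convex_Ici (𝕜 := ℝ) (fun _ : ι => c)) isClosed_Ici hdis
    set y : ι → ℝ := fun i => f (Pi.single i 1) with hy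
    have hf : ∀ x : ι → ℝ, f x = ∑ i, x i * y i := by
      intro x
      have : x = ∑ i, x i • (Pi.single i (1 : ℝ) : ι → ℝ) := by
        ext j
        simp [Finset.sum_apply, Pi.single_apply]
      conv_lhs => rw [this]
      rw [map_sum]
      refine sum_congr rfl fun i _ => ?_
      rw [map_smul, smul_eq_mul]
    have hy0 : ∀ i, 0 ≤ y i := by
      intro i
      by_contra hneg
      rw [not_le] at hneg
      set f0 := f (fun _ : ι => c) with hf0
      set t : ℝ := max 0 ((f0 - v) / (- y i)) with ht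
      have ht0 : 0 ≤ t := le_max_left _ _
      have hb : (fun _ : ι => c) + t • (Pi.single i (1 : ℝ) : ι → ℝ) ∈
          Set.Ici (fun _ : ι => c) := by
        intro j
        have : 0 ≤ (Pi.single i (1 : ℝ) : ι → ℝ) j := by
          by_cases hj : j = i
          · rw [hj, Pi.single_eq_same]
            exact zero_le_one
          · rw [Pi.single_eq_of_ne hj]
        simp only [Pi.add_apply, Pi.smul_apply, smul_eq_mul]
        nlinarith
      have h4 := h3 _ hb
      rw [map_add, map_smul, smul_eq_mul] at h4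
      have h5 : (f0 - v) / (- y i) ≤ t := le_max_right _ _
      rw [div_le_iff₀ (by linarith)] at h5
      have h6 : f (Pi.single i 1) = y i := rfl
      rw [h6] at h4
      linarith
    obtain ⟨I, hI, hIy⟩ := H y hy0
    have hmem : (Pi.single I (1 : ℝ) : Finset ι → ℝ) ∈ Δ := by
      refine ⟨single_mem_stdSimplex ℝ I, ?_⟩
      intro J hJ
      rw [Pi.single_eq_of_ne]
      rintro rfl
      exact hJ hI
    have h4 := h1 _ (Set.mem_image_of_mem T hmem)
    have h5 := h3 _ (Set.mem_Ici.2 (le_refl (fun _ : ι => c)))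
    rw [hf] at h4 h5
    have h6 : ∑ i, T (Pi.single I (1 : ℝ)) i * y i = ∑ i ∈ I, y i := by
      have : ∀ i, T (Pi.single I (1 : ℝ)) i * y i = if i ∈ I then y i else 0 := by
        intro i
        rw [hTapp]
        by_cases hi : i ∈ I
        · rw [if_pos hi, sum_eq_single_of_mem I (mem_filter.2 ⟨mem_univ _, hi⟩),
            Pi.single_eq_same, one_mul]
          intro J _ hJ
          rw [Pi.single_eq_of_ne hJ]
        · rw [if_neg hi, sum_eq_zero, zero_mul]
          intro J hJ
          rw [Pi.single_eq_of_ne]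
          rintro rfl
          exact hi (mem_filter.1 hJ).2
      rw [sum_congr rfl fun i _ => this i, sum_ite_mem, univ_inter]
    rw [h6] at h4
    rw [← mul_sum] at h5
    linarith
  · rw [Set.not_disjoint_iff] at hdis
    obtain ⟨x, ⟨l, hl, rfl⟩, hx⟩ := hdis
    refine ⟨l, hl.1.1, ?_, hl.1.2, ?_⟩
    · intro I hI
      by_contra hcon
      exact hI (hl.2 I hcon)
    · intro v
      rw [← hTapp]
      exact hx v

/-- the final statement with classical decidability -/
theorem main (r : ℕ) (hr : 4 ≤ r) (ε : ℝ) (hε : 0 < ε) : ∃ D : ℕ, ∀ d : ℕ, D ≤ d →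
      ∀ (n : ℕ) (G : SimpleGraph (Fin n)),
        G.CliqueFree r →
        (∀ S : Finset (Fin n), S.Nonempty →
            ∃ v ∈ S, (S.filter (fun u => G.Adj v u)).card ≤ d) →
        ∃ w : Finset (Fin n) → ℝ,
          (∀ I, 0 ≤ w I) ∧
          (∀ I, w I ≠ 0 → G.IsIndepSet (↑I : Set (Fin n))) ∧
          (∀ v : Fin n, 1 ≤ ∑ I ∈ Finset.univ.filter (fun I : Finset (Fin n) => v ∈ I), w I) ∧
          (∑ I, w I) ≤ ε * (d : ℝ) := by
  obtain ⟨D0, hD0, hcl⟩ := claim r (1 / ε) (by positivity)
  refine ⟨⌈D0⌉₊, ?_⟩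
  intro d hd n G hG hdeg
  have hdD : D0 ≤ (d : ℝ) := (Nat.le_ceil D0).trans (by exact_mod_cast hd)
  have hd0 : (0 : ℝ) < d := lt_of_lt_of_le hD0 hdD
  obtain ⟨f, -, hinj, hf⟩ := exists_order G d hdeg n univ (by simp)
  have hinj' : Function.Injective f := fun a b hab => hinj (by simp) (by simp) hab
  set φ : Fin n ↪ ℕ := ⟨f, hinj'⟩ with hφ
  set G' : SimpleGraph ℕ := G.map φ with hG'
  set V : Finset ℕ := univ.map φ with hV
  have hadj : ∀ u v : Fin n, G'.Adj (f u) (f v) ↔ G.Adj u v := fun u v =>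
    SimpleGraph.map_adj_apply (f := φ)
  have hK : KFree G' r V := by
    intro s _ hs
    rw [hG', SimpleGraph.isNClique_map_iff (by omega)] at hs
    obtain ⟨t, ht, -⟩ := hs
    exact hG t ht
  have hbn : ∀ v ∈ V, ((bn G' V v).card : ℝ) ≤ d := by
    intro v hv
    rw [hV, mem_map] at hv
    obtain ⟨v0, -, rfl⟩ := hv
    have h1 : bn G' V (φ v0) =
        (univ.filter (fun u => f u < f v0 ∧ G.Adj u v0)).map φ := by
      ext x
      constructor
      · intro hx0
        obtain ⟨hx, hlt, ha⟩ := mem_bn.1 hx0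
        rw [hV, mem_map] at hx
        obtain ⟨u, -, rfl⟩ := hx
        exact mem_map.2 ⟨u, mem_filter.2 ⟨mem_univ _, hlt, (hadj u v0).1 ha⟩, rfl⟩
      · intro hx0
        obtain ⟨u, hu, rfl⟩ := mem_map.1 hx0
        rw [mem_filter] at hu
        exact mem_bn.2 ⟨mem_map_of_mem _ (mem_univ _), hu.2.1, (hadj u v0).2 hu.2.2⟩
    rw [h1, card_map]
    exact_mod_cast hf v0 (mem_univ _)
  have hdual : ∀ y : Fin n → ℝ, (∀ v, 0 ≤ y v) →
      ∃ I ∈ univ.filter (fun I : Finset (Fin n) => G.IsIndepSet (↑I : Set (Fin n))),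
        1 / (ε * d) * ∑ v, y v ≤ ∑ v ∈ I, y v := by
    intro y hy
    set y' : ℕ → ℝ := fun m => ∑ v : Fin n, if f v = m then y v else 0 with hy'
    have hy'0 : ∀ m, 0 ≤ y' m := by
      intro m
      refine sum_nonneg fun v _ => ?_
      split_ifs
      · exact hy v
      · exact le_rfl
    have hy'f : ∀ v, y' (f v) = y v := by
      intro v
      simp only [hy']
      rw [sum_eq_single v]
      · rw [if_pos rfl]
      · intro b _ hb
        rw [if_neg]
        intro hcon
        exact hb (hinj' hcon)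
      · intro hcon
        exact absurd (mem_univ v) hcon
    obtain ⟨I, hI, hIind, hIsum⟩ := hcl d hdD G' V hK hbn y' hy'0
    refine ⟨univ.filter (fun v => f v ∈ I), ?_, ?_⟩
    · refine mem_filter.2 ⟨mem_univ _, ?_⟩
      intro u hu v hv huv
      have hu' : f u ∈ I := (mem_filter.1 (mem_coe.1 hu)).2
      have hv' : f v ∈ I := (mem_filter.1 (mem_coe.1 hv)).2
      intro ha
      rcases lt_trichotomy (f u) (f v) with h | h | h
      · exact hIind _ hu' _ hv' h ((hadj u v).2 ha)
      · exact huv (hinj' h)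
      · exact hIind _ hv' _ hu' h ((hadj v u).2 ha.symm)
    · have e1 : ∑ v ∈ V, y' v = ∑ v, y v := by
        rw [hV, sum_map]
        exact sum_congr rfl fun v _ => hy'f v
      have e2 : I = (univ.filter (fun v => f v ∈ I)).map φ := by
        ext x
        rw [mem_map]
        constructor
        · intro hx
          have := hI hx
          rw [hV, mem_map] at this
          obtain ⟨v, -, rfl⟩ := this
          exact ⟨v, mem_filter.2 ⟨mem_univ _, hx⟩, rfl⟩
        · rintro ⟨v, hv, rfl⟩
          exact (mem_filter.1 hv).2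
      have e3 : ∑ v ∈ I, y' v = ∑ v ∈ univ.filter (fun v => f v ∈ I), y v := by
        conv_lhs => rw [e2]
        rw [sum_map]
        exact sum_congr rfl fun v _ => hy'f v
      rw [e1, e3] at hIsum
      have e4 : 1 / (ε * (d : ℝ)) = 1 / ε / d := by
        rw [div_div]
      rw [e4]
      exact hIsum
  obtain ⟨l, h1, h2, h3, h4⟩ := duality _ _ hdual
  refine ⟨fun I => ε * d * l I, fun I => mul_nonneg (by positivity) (h1 I), ?_, ?_, ?_⟩
  · intro I hI
    have : l I ≠ 0 := fun h => hI (by simp [h])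
    exact (mem_filter.1 (h2 I this)).2
  · intro v
    rw [← mul_sum]
    have := mul_le_mul_of_nonneg_left (h4 v) (by positivity : (0 : ℝ) ≤ ε * d)
    refine le_trans (le_of_eq ?_) this
    field_simp
  · rw [← mul_sum, h3, mul_one]

end

end Pool.Agent.Lib.MP_3ae7ea_co
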